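import Pool.Agent.Q112.BT.Pat

/-!
# Patterns exist almost surely
-/

set_option autoImplicit false

namespace Pool.Agent.Q112.BT

open Finset Filter MeasureTheory ProbabilityTheory Pool.Agent.Q120.GM Pool.Agent.Q112.LE
open scoped Topology

variable {Q : ℕ}
variable {Ω : Type*} [MeasurableSpace Ω] {μ : Measure Ω} [IsProbabilityMeasure μ] {A : Ω → Set ℕ}

/-- The number of elements of the patterns. -/
noncomputable def tt (κ : ℝ) (X : ℕ) : ℕ := ⌈κ * (Real.log X / Real.log (Real.log X))⌉₊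

theorem le_tt (κ : ℝ) (X : ℕ) : κ * (Real.log X / Real.log (Real.log X)) ≤ tt κ X := Nat.le_ceil _

theorem tt_lt {κ : ℝ} {X : ℕ} (h : 0 ≤ κ * (Real.log X / Real.log (Real.log X))) :
    (tt κ X : ℝ) < κ * (Real.log X / Real.log (Real.log X)) + 1 := Nat.ceil_lt_add_one h

/-- `L / log L ≤ ε L`. -/
theorem div_loglog_le {ε : ℝ} (hε : 0 < ε) : ∀ᶠ X : ℕ in atTop,
    Real.log (X : ℝ) / Real.log (Real.log X) ≤ ε * Real.log X := by
  filter_upwards [tendsto_loglog.eventually_ge_atTop (max 1 (1 / ε)), hL1.eventually_ge_atTop 1] with X h1 h2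
  have h3 : 1 ≤ Real.log (Real.log (X : ℝ)) := (le_max_left _ _).trans h1
  have h4 : 1 / ε ≤ Real.log (Real.log (X : ℝ)) := (le_max_right _ _).trans h1
  rw [div_le_iff₀ hε] at h4
  rw [div_le_iff₀ (by linarith)]
  nlinarith

theorem tt_le {κ : ℝ} (hκ : 0 ≤ κ) {ε : ℝ} (hε : 0 < ε) : ∀ᶠ X : ℕ in atTop, (tt κ X : ℝ) ≤ ε * Real.log X := by
  filter_upwards [div_loglog_le (show 0 < ε / (2 * (κ + 1)) by positivity), hL1.eventually_ge_atTop (max 1 (2 / ε)),
    tendsto_loglog.eventually_ge_atTop 1] with X h1 h2 h3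
  have h4 : 1 ≤ Real.log (X : ℝ) := (le_max_left _ _).trans h2
  have h5 : 2 / ε ≤ Real.log (X : ℝ) := (le_max_right _ _).trans h2
  rw [div_le_iff₀ hε] at h5
  have h6 := tt_lt (κ := κ) (X := X) (mul_nonneg hκ (div_nonneg (by linarith) (by linarith)))
  have h7 : κ * (Real.log X / Real.log (Real.log X)) ≤ κ * (ε / (2 * (κ + 1)) * Real.log X) := mul_le_mul_of_nonneg_left h1 hκ
  have h8 : κ * (ε / (2 * (κ + 1)) * Real.log X) ≤ ε / 2 * Real.log X := by
    have h9 : κ * (ε / (2 * (κ + 1)) * Real.log X) = ε / 2 * Real.log X * (κ / (κ + 1)) := by field_simp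
    rw [h9]
    have h10 : κ / (κ + 1) ≤ 1 := by
      rw [div_le_one (by linarith)]
      linarith
    have h11 : 0 ≤ ε / 2 * Real.log X := by positivity
    nlinarith
  linarith

theorem one_le_tt {κ : ℝ} (hκ : 0 < κ) : ∀ᶠ X : ℕ in atTop, 1 ≤ tt κ X := by
  filter_upwards [hL1.eventually_ge_atTop 1, tendsto_loglog.eventually_ge_atTop 1] with X h1 h2
  have : 0 < κ * (Real.log X / Real.log (Real.log X)) := by
    have : 0 < Real.log (X : ℝ) / Real.log (Real.log X) := div_pos (by linarith) (by linarith)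
    positivity
  exact Nat.ceil_pos.2 this

/-- Lower bound for the probability of a pattern. -/
theorem pat_prob_low (hQ : 1 ≤ Q) {κ : ℝ} (hκ : 0 ≤ κ) {ε : ℝ} (hε : 0 < ε) : ∀ᶠ X : ℕ in atTop,
    (X : ℝ) ^ (-(κ + ε)) ≤ (qq Q / Real.log (1 + 2 * (Q * X))) ^ tt κ X := by
  have hq := qq_pos hQ
  obtain ⟨c, hc⟩ : ∃ c, c = |Real.log (qq Q)| + 1 := ⟨_, rfl⟩
  have hc0 : 0 < c := by rw [hc]; positivity
  filter_upwards [div_loglog_le (show 0 < ε / (4 * (κ + 1) * c) by positivity), loglog_le (4 / ε) (zero_lt_one),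
    hL1.eventually_ge_atTop (max 1 (max (4 * c / ε) (Real.log (3 * Q)))), tendsto_loglog.eventually_ge_atTop 1,
    eventually_ge_atTop 1] with X h1 h2 h3 h4 hX
  have hX0 : (0 : ℝ) < X := by exact_mod_cast hX
  have hX1 : (1 : ℝ) ≤ X := by exact_mod_cast hX
  have hQ1 : (1 : ℝ) ≤ Q := by exact_mod_cast hQ
  obtain ⟨L, hL⟩ : ∃ L, L = Real.log (X : ℝ) := ⟨_, rfl⟩
  rw [← hL] at h1 h2 h3 h4
  have hLL1 : 1 ≤ L := (le_max_left _ _).trans h3
  have hLL2 : 4 * c / ε ≤ L := ((le_max_left _ _).trans (le_max_right _ _)).trans h3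
  have hLL3 : Real.log (3 * Q) ≤ L := ((le_max_right _ _).trans (le_max_right _ _)).trans h3
  rw [Real.rpow_one] at h2
  have hY1 : 1 < 1 + 2 * ((Q : ℝ) * X) := by
    have : 0 < (Q : ℝ) * X := by positivity
    linarith
  have hlogY : 0 < Real.log (1 + 2 * ((Q : ℝ) * X)) := Real.log_pos hY1
  have hlogY2 : Real.log (1 + 2 * ((Q : ℝ) * X)) ≤ 2 * L := by
    have e1 : 1 + 2 * ((Q : ℝ) * X) ≤ (3 * Q) * X := by
      have : (1 : ℝ) ≤ Q * X := one_le_mul_of_one_le_of_one_le hQ1 hX1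
      linarith
    have e2 := Real.log_le_log (by linarith) e1
    rw [Real.log_mul (by positivity) hX0.ne', ← hL] at e2
    linarith
  -- take logarithms
  rw [Real.rpow_def_of_pos hX0, ← hL, ← Real.rpow_natCast, Real.rpow_def_of_pos (by positivity), Real.exp_le_exp,
    Real.log_div hq.ne' hlogY.ne']
  have e1 : Real.log (Real.log (1 + 2 * ((Q : ℝ) * X))) ≤ Real.log L + Real.log 2 := by
    have := Real.log_le_log hlogY hlogY2
    rw [Real.log_mul (by norm_num) (by linarith)] at this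
    linarith
  have e2 : Real.log 2 ≤ 1 := by have := Real.log_two_lt_d9; linarith
  have e3 : -(Real.log L + c) ≤ Real.log (qq Q) - Real.log (Real.log (1 + 2 * ((Q : ℝ) * X))) := by
    have := neg_abs_le (Real.log (qq Q))
    linarith
  have ht0 : (0 : ℝ) ≤ tt κ X := Nat.cast_nonneg _
  have ht := tt_lt (κ := κ) (X := X) (by
    rw [← hL]
    exact mul_nonneg hκ (div_nonneg (by linarith) (by linarith)))
  rw [← hL] at ht
  have e4 : (tt κ X : ℝ) * (Real.log L + c) ≤ (κ + ε) * L := by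
    have e5 : (tt κ X : ℝ) * (Real.log L + c) ≤ (κ * (L / Real.log L) + 1) * (Real.log L + c) :=
      mul_le_mul_of_nonneg_right ht.le (by linarith)
    have e6 : (κ * (L / Real.log L) + 1) * (Real.log L + c) = κ * L + κ * c * (L / Real.log L) + Real.log L + c := by
      have : Real.log L ≠ 0 := by linarith
      field_simp
      ring
    have e7 : κ * c * (L / Real.log L) ≤ ε / 4 * L := by
      have e8 : κ * c * (L / Real.log L) ≤ κ * c * (ε / (4 * (κ + 1) * c) * L) := mul_le_mul_of_nonneg_left h1 (by positivity)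
      have e9 : κ * c * (ε / (4 * (κ + 1) * c) * L) = ε / 4 * L * (κ / (κ + 1)) := by field_simp
      have e10 : κ / (κ + 1) ≤ 1 := by
        rw [div_le_one (by linarith)]
        linarith
      have e11 : 0 ≤ ε / 4 * L := by positivity
      nlinarith
    have e8 : Real.log L ≤ ε / 4 * L := by
      have e9 : 4 / ε * Real.log L * (ε / 4) ≤ L * (ε / 4) := mul_le_mul_of_nonneg_right h2 (by positivity)
      have e10 : 4 / ε * Real.log L * (ε / 4) = Real.log L := by field_simp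
      linarith
    have e9 : c ≤ ε / 4 * L := by
      rw [div_le_iff₀ hε] at hLL2
      linarith
    nlinarith
  have e5 : L * -(κ + ε) = -((κ + ε) * L) := by ring
  rw [e5]
  have e6 : -(tt κ X * (Real.log L + c)) ≤ (Real.log (qq Q) - Real.log (Real.log (1 + 2 * ((Q : ℝ) * X)))) * (tt κ X : ℝ) := by
    nlinarith
  linarith

/-- Upper bound for the probability of two patterns. -/
theorem pat_prob_up (hQ : 1 ≤ Q) {κ : ℝ} (hκ : 0 < κ) {ε : ℝ} (hε : 0 < ε) : ∀ᶠ X : ℕ in atTop,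
    (qq Q / Real.log X) ^ (2 * tt κ X - 1) ≤ (X : ℝ) ^ (-(2 * κ - ε)) := by
  have hq := qq_pos hQ
  obtain ⟨c, hc⟩ : ∃ c, c = |Real.log (qq Q)| + 1 := ⟨_, rfl⟩
  have hc0 : 0 < c := by rw [hc]; positivity
  filter_upwards [div_loglog_le (show 0 < ε / (4 * (κ + 1) * c) by positivity), loglog_le (2 / ε) (zero_lt_one),
    hL1.eventually_ge_atTop 1, tendsto_loglog.eventually_ge_atTop (max 1 c), one_le_tt hκ,
    eventually_ge_atTop 1] with X h1 h2 h3 h4 h5 hX
  have hX0 : (0 : ℝ) < X := by exact_mod_cast hX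
  obtain ⟨L, hL⟩ : ∃ L, L = Real.log (X : ℝ) := ⟨_, rfl⟩
  have ht := le_tt κ X
  rw [← hL] at h1 h2 h3 h4 ht ⊢
  have hl1 : 1 ≤ Real.log L := (le_max_left _ _).trans h4
  have hlc : c ≤ Real.log L := (le_max_right _ _).trans h4
  rw [Real.rpow_one] at h2
  have hL0 : 0 < L := by linarith
  rw [Real.rpow_def_of_pos hX0, ← hL, ← Real.rpow_natCast, Real.rpow_def_of_pos (by positivity), Real.exp_le_exp,
    Real.log_div hq.ne' hL0.ne', Nat.cast_sub (by omega)]
  push_cast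
  have e1 : Real.log (qq Q) - Real.log L ≤ -(Real.log L - c) := by
    have := le_abs_self (Real.log (qq Q))
    linarith
  have e2 : (2 * κ - ε) * L ≤ (Real.log L - c) * (2 * (tt κ X : ℝ) - 1) := by
    have e3 : (Real.log L - c) * (2 * (κ * (L / Real.log L)) - 1) ≤ (Real.log L - c) * (2 * (tt κ X : ℝ) - 1) :=
      mul_le_mul_of_nonneg_left (by linarith) (by linarith)
    refine le_trans ?_ e3
    have e4 : (Real.log L - c) * (2 * (κ * (L / Real.log L)) - 1) =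
        2 * κ * L - 2 * (κ * c * (L / Real.log L)) - Real.log L + c := by
      have : Real.log L ≠ 0 := by linarith
      field_simp
      ring
    rw [e4]
    have e7 : κ * c * (L / Real.log L) ≤ ε / 4 * L := by
      have e8 : κ * c * (L / Real.log L) ≤ κ * c * (ε / (4 * (κ + 1) * c) * L) := mul_le_mul_of_nonneg_left h1 (by positivity)
      have e9 : κ * c * (ε / (4 * (κ + 1) * c) * L) = ε / 4 * L * (κ / (κ + 1)) := by field_simp
      have e10 : κ / (κ + 1) ≤ 1 := by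
        rw [div_le_one (by linarith)]
        linarith
      have e11 : 0 ≤ ε / 4 * L := by positivity
      nlinarith
    have e8 : Real.log L ≤ ε / 2 * L := by
      have e9 : 2 / ε * Real.log L * (ε / 2) ≤ L * (ε / 2) := mul_le_mul_of_nonneg_right h2 (by positivity)
      have e10 : 2 / ε * Real.log L * (ε / 2) = Real.log L := by field_simp
      linarith
    linarith
  have e3 : (0 : ℝ) ≤ 2 * (tt κ X : ℝ) - 1 := by
    have : (1 : ℝ) ≤ tt κ X := by exact_mod_cast h5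
    linarith
  have e4 : (Real.log (qq Q) - Real.log L) * (2 * (tt κ X : ℝ) - 1) ≤ -(Real.log L - c) * (2 * (tt κ X : ℝ) - 1) :=
    mul_le_mul_of_nonneg_right e1 e3
  linarith

/-- Sets of moduli. -/
structure Mods (Q : ℕ) (τ : ℝ) (𝒦 : ℕ → Finset ℕ) : Prop where
  pos : ∀ᶠ X : ℕ in atTop, ∀ k ∈ 𝒦 X, 1 ≤ k
  le : ∀ᶠ X : ℕ in atTop, ∀ k ∈ 𝒦 X, (k : ℝ) ≤ (X : ℝ) ^ τ
  pair : ∀ᶠ X : ℕ in atTop, ∀ k ∈ 𝒦 X, ∀ k' ∈ 𝒦 X, k ≠ k' → Nat.Coprime k k' ∧ Real.log X ≤ k
  res : ∀ᶠ X : ℕ in atTop, ∀ k ∈ 𝒦 X, ∀ B : ℕ,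
    (k : ℝ) / 2 ≤ (((range k).filter (fun r => Nat.Coprime (1 + Q * (B + r)) k)).card : ℝ)
  phi : ∀ ε : ℝ, 0 < ε → ∀ᶠ X : ℕ in atTop, ∀ k ∈ 𝒦 X, (k : ℝ) ≤ (1 + ε) * Nat.totient k
  card : ∀ ε : ℝ, 0 < ε → ∀ᶠ X : ℕ in atTop, (X : ℝ) ^ (τ - ε) ≤ (𝒦 X).card

/-- **Patterns exist.** -/
theorem pat_as (hA : IsModel μ (level Q) A) (hQ : 1 ≤ Q) {τ κ : ℝ} (hτ0 : 0 ≤ τ) (hτ1 : τ < 1) (h1 : τ < κ) (h2 : κ < 1 + τ)
    {𝒦 : ℕ → Finset ℕ} (h𝒦 : Mods Q τ 𝒦) :
    ∀ᵐ ω ∂μ, ∀ᶠ X : ℕ in atTop, ∃ q ∈ idx Q X (tt κ X) (𝒦 X), ∀ n ∈ pat Q X (tt κ X) q, n ∈ A ω := by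
  have hq := qq_pos hQ
  obtain ⟨ε, hε⟩ : ∃ ε, ε = min (κ - τ) (1 + τ - κ) / 8 := ⟨_, rfl⟩
  have hε0 : 0 < ε := by
    rw [hε]
    have : 0 < min (κ - τ) (1 + τ - κ) := lt_min (by linarith) (by linarith)
    positivity
  have hε1 : 8 * ε ≤ κ - τ := by rw [hε]; have := min_le_left (κ - τ) (1 + τ - κ); linarith
  have hε2 : 8 * ε ≤ 1 + τ - κ := by rw [hε]; have := min_le_right (κ - τ) (1 + τ - κ); linarith
  have hκ : 0 < κ := by linarith
  have hEb : ∀ᶠ X : ℕ in atTop, μ.real (none A (idx Q X (tt κ X) (𝒦 X)) (pat Q X (tt κ X))) ≤ (X : ℝ) ^ (-(2 : ℝ)) := by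
    filter_upwards [h𝒦.pos, h𝒦.le, h𝒦.pair, h𝒦.res, h𝒦.card ε hε0, pat_prob_low (Q := Q) hQ hκ.le hε0,
      pat_prob_up (Q := Q) hQ hκ hε0, tt_le hκ.le (show (0 : ℝ) < 1 / 4 by norm_num), one_le_tt hκ,
      pow_log_le 4 1 hε0, ev_rpow 2 hε0, pow_log_le 1 1 (show 0 < 1 - τ by linarith),
      hL1.eventually_ge_atTop (max 1 (qq Q)), eventually_ge_atTop 1]
      with X k1 k2 k3 k4 k5 k6 k7 k8 k9 k10 k11 k12 k13 hX
    have hX0 : (0 : ℝ) < X := by exact_mod_cast hX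
    have hX1 : (1 : ℝ) ≤ X := by exact_mod_cast hX
    obtain ⟨L, hL⟩ : ∃ L, L = Real.log (X : ℝ) := ⟨_, rfl⟩
    obtain ⟨t, ht⟩ : ∃ t, t = tt κ X := ⟨_, rfl⟩
    obtain ⟨K, hK⟩ : ∃ K, K = 𝒦 X := ⟨_, rfl⟩
    obtain ⟨N, hN⟩ : ∃ N : ℝ, N = ((idx Q X t K).card : ℝ) := ⟨_, rfl⟩
    rw [← hK] at k1 k2 k3 k4 k5
    rw [← ht] at k6 k7 k8 k9
    have hLq : qq Q ≤ Real.log (X : ℝ) := (le_max_right _ _).trans k13
    have hL1' : 1 ≤ Real.log (X : ℝ) := (le_max_left _ _).trans k13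
    rw [pow_one] at k10 k12
    have ht0 : (1 : ℝ) ≤ t := by exact_mod_cast k9
    have htL : (t : ℝ) ≤ Real.log X := by linarith
    have hmain := none_le (μ := μ) (K := K) (X := X) (t := t) hA hQ k9 k1 (fun k hk k' hk' hne => by
      obtain ⟨e1, e2⟩ := k3 k hk k' hk' hne
      refine ⟨e1, ?_⟩
      have : (t : ℝ) ≤ k := htL.trans e2
      exact_mod_cast this) hX hLq (by linarith)
    rw [← ht, ← hK]
    refine hmain.trans ?_
    rw [← hN]
    -- the size of `K`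
    have hKc : (K.card : ℝ) ≤ (X : ℝ) ^ τ := by
      have e1 : K ⊆ Icc 1 ⌊(X : ℝ) ^ τ⌋₊ := by
        intro k hk
        rw [mem_Icc]
        exact ⟨k1 k hk, Nat.le_floor (k2 k hk)⟩
      have e2 := card_le_card e1
      rw [Nat.card_Icc, Nat.add_sub_cancel] at e2
      have e3 : (K.card : ℝ) ≤ ⌊(X : ℝ) ^ τ⌋₊ := by exact_mod_cast e2
      exact e3.trans (Nat.floor_le (by positivity))
    have hNlow : (X : ℝ) ^ (1 + τ - 2 * ε) ≤ N := by
      rw [hN]
      refine le_trans ?_ (le_card_idx (Q := Q) (X := X) (t := t) k9 k1 (fun k hk => k4 k hk X) (fun k hk => ?_))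
      · have e1 : (X : ℝ) ^ (1 - ε) ≤ X / (4 * t) := by
          rw [le_div_iff₀ (by positivity)]
          have e2 : (X : ℝ) = X ^ (1 - ε) * X ^ ε := by
            rw [← Real.rpow_add hX0]
            norm_num
          have e3 : (4 : ℝ) * t ≤ X ^ ε := by linarith
          calc (X : ℝ) ^ (1 - ε) * (4 * t) ≤ X ^ (1 - ε) * X ^ ε := mul_le_mul_of_nonneg_left e3 (by positivity)
            _ = X := e2.symm
        calc (X : ℝ) ^ (1 + τ - 2 * ε) = X ^ (τ - ε) * X ^ (1 - ε) := by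
              rw [← Real.rpow_add hX0]
              congr 1
              ring
          _ ≤ _ := mul_le_mul k5 e1 (by positivity) (Nat.cast_nonneg _)
      · have e1 : (2 : ℝ) * (k * t) ≤ X := by
          have e2 : (k : ℝ) * (4 * t) ≤ X ^ τ * X ^ (1 - τ) := by
            refine mul_le_mul (k2 k hk) ?_ (by positivity) (by positivity)
            linarith
          rw [← Real.rpow_add hX0] at e2
          have e3 : (X : ℝ) ^ (τ + (1 - τ)) = X := by norm_num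
          rw [e3] at e2
          have e4 : 0 ≤ (k : ℝ) * t := by positivity
          linarith
        exact_mod_cast e1
    -- the correction
    obtain ⟨P, hP⟩ : ∃ P, P = (qq Q / Real.log (1 + 2 * ((Q : ℝ) * X))) ^ t := ⟨_, rfl⟩
    obtain ⟨R, hR⟩ : ∃ R, R = (qq Q / Real.log (X : ℝ)) ^ (2 * t - 1) := ⟨_, rfl⟩
    rw [← hP] at k6 ⊢
    rw [← hR] at k7 ⊢
    have hN0 : 0 ≤ N := by rw [hN]; exact Nat.cast_nonneg _
    have hR0 : 0 ≤ R := by
      rw [hR]
      have : 0 ≤ qq Q / Real.log (X : ℝ) := div_nonneg hq.le (by linarith)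
      positivity
    have hcorr : (t : ℝ) * K.card * R ≤ P / 2 := by
      have e1 : (t : ℝ) * K.card * R ≤ X ^ ε * X ^ τ * X ^ (-(2 * κ - ε)) := by
        have e2 : (t : ℝ) ≤ X ^ ε := by linarith
        have e3 : (t : ℝ) * K.card ≤ X ^ ε * X ^ τ := mul_le_mul e2 hKc (Nat.cast_nonneg _) (by positivity)
        exact mul_le_mul e3 k7 hR0 (by positivity)
      have e4 : (X : ℝ) ^ ε * X ^ τ * X ^ (-(2 * κ - ε)) * X ^ ε ≤ X ^ (-(κ + ε)) := by
        rw [← Real.rpow_add hX0, ← Real.rpow_add hX0, ← Real.rpow_add hX0]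
        exact Real.rpow_le_rpow_of_exponent_le hX1 (by linarith)
      have e5 : 0 ≤ (X : ℝ) ^ ε * X ^ τ * X ^ (-(2 * κ - ε)) := by positivity
      nlinarith
    have e1 : -(N * P) + N * ((t * K.card) * R) ≤ -(N * (X ^ (-(κ + ε)) / 2)) := by
      have e2 : N * ((t * K.card) * R) ≤ N * (P / 2) := mul_le_mul_of_nonneg_left hcorr hN0
      have e3 : N * (X ^ (-(κ + ε)) / 2) ≤ N * (P / 2) := mul_le_mul_of_nonneg_left (by linarith) hN0
      linarith
    have e2 : 2 * Real.log (X : ℝ) ≤ N * (X ^ (-(κ + ε)) / 2) := by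
      have e3 : (X : ℝ) ^ (1 + τ - 2 * ε) * (X ^ (-(κ + ε)) / 2) ≤ N * (X ^ (-(κ + ε)) / 2) :=
        mul_le_mul_of_nonneg_right hNlow (by positivity)
      refine le_trans ?_ e3
      have e4 : (X : ℝ) ^ (1 + τ - 2 * ε) * (X ^ (-(κ + ε)) / 2) = X ^ (1 + τ - κ - 3 * ε) / 2 := by
        rw [mul_div_assoc', ← Real.rpow_add hX0]
        congr 2
        ring
      rw [e4]
      have e5 : (X : ℝ) ^ ε ≤ X ^ (1 + τ - κ - 3 * ε) := Real.rpow_le_rpow_of_exponent_le hX1 (by linarith)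
      linarith
    calc Real.exp (-(N * P) + N * ((t * K.card) * R)) ≤ Real.exp (-(2 * Real.log X)) := by
          rw [Real.exp_le_exp]
          linarith
      _ = (X : ℝ) ^ (-(2 : ℝ)) := by
          rw [Real.rpow_def_of_pos hX0]
          congr 1
          ring
  have hsm : Summable (fun m : ℕ => (m : ℝ) ^ (-(2 : ℝ))) := Real.summable_nat_rpow.2 (by norm_num)
  filter_upwards [bc hsm hEb] with ω hω
  filter_upwards [hω] with X hX
  unfold Pool.Agent.Q120.GM.none at hX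
  rw [Set.mem_setOf_eq] at hX
  push Not at hX
  obtain ⟨q, hq1, hq2⟩ := hX
  exact ⟨q, hq1, hq2⟩

end Pool.Agent.Q112.BT
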