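import Pool.Agent.Q112.BT.Tail

/-!
# Long windows
-/

set_option autoImplicit false

namespace Pool.Agent.Q112.BT

open Finset Filter MeasureTheory ProbabilityTheory Pool.Agent.Q120.GM Pool.Agent.Q112.LE
open scoped Topology

variable {Q : ℕ}
variable {Ω : Type*} [MeasurableSpace Ω] {μ : Measure Ω} [IsProbabilityMeasure μ] {A : Ω → Set ℕ}

/-- The expected number in long windows. -/
theorem mean_long (hQ : 1 ≤ Q) {ε : ℝ} (hε : 0 < ε) (hε1 : ε ≤ 1 / 2) :
    ∀ᶠ m : ℕ in atTop, ∀ k H : ℕ, 1 ≤ k → Real.log m ^ 5 < (H : ℝ) → k * (H - 1) ≤ m → Nat.Coprime m k →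
      ∑ n ∈ win m k H, level Q n ≤ (1 + 5 * ε) * (kap Q k * (H / Real.log m)) := by
  filter_upwards [hL1.eventually_ge_atTop (max 1 (max (Q / ε) (2 / ε))), log_le_rpow (4 / ε) hε,
    ev_rpow 2 hε, eventually_ge_atTop 2] with m h1 h2 h3 hm k H hk hH hkH hg
  have hm2 : (2 : ℝ) ≤ m := by exact_mod_cast hm
  have hm0 : (0 : ℝ) < m := by linarith
  have hk0 : (0 : ℝ) < k := by exact_mod_cast hk
  obtain ⟨L, hL⟩ : ∃ L, L = Real.log (m : ℝ) := ⟨_, rfl⟩
  rw [← hL] at h1 h2 hH ⊢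
  have hL1' : 1 ≤ L := (le_max_left _ _).trans h1
  have hLQ : Q / ε ≤ L := ((le_max_left _ _).trans (le_max_right _ _)).trans h1
  have hL2' : 2 / ε ≤ L := ((le_max_right _ _).trans (le_max_right _ _)).trans h1
  have hL0 : 0 < L := by linarith
  have hkap := one_le_kap hQ k
  have hkap0 := kap_pos hQ k
  have hLH : L ^ 2 ≤ H := by
    have : L ^ 2 ≤ L ^ 5 := pow_le_pow_right₀ hL1' (by norm_num)
    linarith
  have hH0 : (0 : ℝ) < H := by nlinarith
  have hQH : (Q : ℝ) ≤ ε * H := by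
    rw [div_le_iff₀ hε] at hLQ
    have : L ≤ H := by nlinarith
    nlinarith
  obtain ⟨z, hz⟩ : ∃ z, z = (m : ℝ) ^ (1 - ε) := ⟨_, rfl⟩
  have hz0 : 0 < z := by rw [hz]; positivity
  have hlz : Real.log z = (1 - ε) * L := by rw [hz, Real.log_rpow hm0, hL]
  have hlz0 : 0 < Real.log z := by rw [hlz]; exact mul_pos (by linarith) hL0
  -- the main term
  have hmain : ((H : ℝ) + Q) * kap Q k / Real.log z ≤ (1 + 4 * ε) * (kap Q k * (H / L)) := by
    rw [hlz, div_le_iff₀ (mul_pos (by linarith) hL0)]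
    have e1 : (1 + 4 * ε) * (kap Q k * (H / L)) * ((1 - ε) * L) = (1 + 4 * ε) * (1 - ε) * (kap Q k * H) := by
      field_simp
    rw [e1]
    have e2 : ((H : ℝ) + Q) * kap Q k ≤ (1 + ε) * (kap Q k * H) := by nlinarith
    have e3 : (1 + ε) ≤ (1 + 4 * ε) * (1 - ε) := by nlinarith
    have e4 : 0 ≤ kap Q k * H := by positivity
    exact e2.trans (mul_le_mul_of_nonneg_right e3 e4)
  have hHL : 0 ≤ kap Q k * (H / L) := by positivity
  by_cases hcase : ∀ j < H, z ≤ ((m - k * j : ℕ) : ℝ)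
  · rw [sum_win hk hkH]
    refine (sum_desc_le hQ hg hz0 hlz0 hkH hcase).trans (hmain.trans ?_)
    exact mul_le_mul_of_nonneg_right (by linarith) hHL
  · push Not at hcase
    obtain ⟨j, hj, hjz⟩ := hcase
    -- `m ≤ 2 k H`
    have e1 : m ≤ (m - k * j) + k * H := by
      have : k * j ≤ k * H := Nat.mul_le_mul_left k hj.le
      omega
    have e2 : (m : ℝ) ≤ ((m - k * j : ℕ) : ℝ) + k * H := by exact_mod_cast e1
    have e3 : z * (m : ℝ) ^ ε = m := by
      rw [hz, ← Real.rpow_add hm0]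
      norm_num
    have e4 : 2 * z ≤ m := by nlinarith
    have e5 : (m : ℝ) ≤ 2 * (k * H) := by linarith
    have e6 : z / k ≤ ε / 2 * (H / L) := by
      rw [div_le_iff₀ hk0]
      have e7 : 4 / ε * L * z ≤ m := by
        rw [← e3, mul_comm]
        exact mul_le_mul_of_nonneg_left h2 hz0.le
      have e8 : ε / 2 * (H / L) * k = ε / (4 * L) * (2 * (k * H)) := by
        field_simp
        ring
      rw [e8]
      have e9 : ε / (4 * L) * m ≤ ε / (4 * L) * (2 * (k * H)) := mul_le_mul_of_nonneg_left e5 (by positivity)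
      refine le_trans ?_ e9
      have e10 : ε / (4 * L) * (4 / ε * L * z) ≤ ε / (4 * L) * m := mul_le_mul_of_nonneg_left e7 (by positivity)
      refine le_trans (le_of_eq ?_) e10
      field_simp
    have e7 : (1 : ℝ) ≤ ε / 2 * (H / L) := by
      rw [mul_div_assoc', le_div_iff₀ hL0]
      rw [div_le_iff₀ hε] at hL2'
      nlinarith
    have e8 := mean_le (Q := Q) hQ hk hkH hg hz0 hlz0
    have e9 : H / L ≤ kap Q k * (H / L) := by
      have : 0 ≤ H / L := by positivity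
      nlinarith
    have e10 : ε * (H / L) ≤ ε * (kap Q k * (H / L)) := mul_le_mul_of_nonneg_left e9 hε.le
    calc ∑ n ∈ win m k H, level Q n ≤ ((H : ℝ) + Q) * kap Q k / Real.log z + (z / k + 1) := e8
      _ ≤ (1 + 4 * ε) * (kap Q k * (H / L)) + (ε / 2 * (H / L) + ε / 2 * (H / L)) := by linarith
      _ = (1 + 4 * ε) * (kap Q k * (H / L)) + ε * (H / L) := by ring
      _ ≤ (1 + 4 * ε) * (kap Q k * (H / L)) + ε * (kap Q k * (H / L)) := by linarith
      _ = _ := by ring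

/-- **Long windows.** -/
theorem long_win (hA : IsModel μ (level Q) A) (hQ : 1 ≤ Q) {C lam : ℝ} (hC : 1 < C) (hlam : 0 < lam) :
    ∀ᶠ m : ℕ in atTop, ∀ k H : ℕ, 1 ≤ k → Real.log m ^ 5 < (H : ℝ) → k * (H - 1) ≤ m → Nat.Coprime m k →
      μ.real {ω | C * ((k : ℝ) / Nat.totient k) * gf (Zf lam m H) ≤ num (win m k H) (El A) ω} ≤ (m : ℝ) ^ (-(5 : ℝ)) := by
  obtain ⟨ε, hε⟩ : ∃ ε : ℝ, ε = (C - 1) / (2 * (11 + C)) := ⟨_, rfl⟩
  have hε0 : 0 < ε := by rw [hε]; exact div_pos (by linarith) (by linarith)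
  have hεC : (11 + C) * ε = (C - 1) / 2 := by
    rw [hε]
    have : 11 + C ≠ 0 := by linarith
    field_simp
  have hε1 : ε ≤ 1 / 2 := by
    rw [hε, div_le_iff₀ (by linarith)]
    linarith
  have g1 : ∀ᶠ m : ℕ in atTop, 5 ≤ ε * ((C - 1) / 2) * Real.log (m : ℝ) ^ 3 := by
    have h1 : Tendsto (fun m : ℕ => ε * ((C - 1) / 2) * Real.log (m : ℝ) ^ 3) atTop atTop :=
      ((tendsto_pow_atTop (by norm_num : (3 : ℕ) ≠ 0)).comp hL1).const_mul_atTop
        (mul_pos hε0 (by linarith))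
    exact h1.eventually_ge_atTop 5
  filter_upwards [mean_long (Q := Q) hQ hε0 hε1, g1, hL1.eventually_ge_atTop (max (max 2 (1 / ε)) (lam + 1)), eventually_ge_atTop 2]
    with m h1 h2 h3 hm k H hk hH hkH hg
  have hm2 : (2 : ℝ) ≤ m := by exact_mod_cast hm
  have hm0 : (0 : ℝ) < m := by linarith
  have hmean := h1 k H hk hH hkH hg
  obtain ⟨L, hL⟩ : ∃ L, L = Real.log (m : ℝ) := ⟨_, rfl⟩
  rw [← hL] at h2 h3 hH hmean
  have hL2' : 2 ≤ L := ((le_max_left _ _).trans (le_max_left _ _)).trans h3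
  have hLε : 1 / ε ≤ L := ((le_max_right _ _).trans (le_max_left _ _)).trans h3
  have hLlam : lam + 1 ≤ L := (le_max_right _ _).trans h3
  have hL0 : 0 < L := by linarith
  have hkap := one_le_kap hQ k
  have hkap0 := kap_pos hQ k
  have hL25 : L ^ 2 ≤ L ^ 5 := pow_le_pow_right₀ (by linarith) (by norm_num)
  have hH2 : L ^ 2 < H := by linarith
  have hH1 : 1 < (H : ℝ) - 1 := by nlinarith
  have hH0 : (0 : ℝ) < H := by linarith
  have hHN : 1 ≤ H := by
    have : (1 : ℝ) ≤ H := by linarith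
    exact_mod_cast this
  have hk0 : (0 : ℝ) < k := by exact_mod_cast hk
  -- the threshold
  have hZ : Zf lam m H = (H : ℝ) - 1 := by
    unfold Zf
    rw [← hL]
    refine max_eq_left ?_
    nlinarith
  have hlogH : Real.log ((H : ℝ) - 1) ≤ L := by
    rw [hL]
    apply Real.log_le_log (by linarith)
    have e1 : ((k * (H - 1) : ℕ) : ℝ) ≤ m := by exact_mod_cast hkH
    push_cast at e1
    rw [Nat.cast_sub hHN, Nat.cast_one] at e1
    have e2 : (1 : ℝ) ≤ k := by exact_mod_cast hk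
    nlinarith
  have hlogH0 : 0 < Real.log ((H : ℝ) - 1) := Real.log_pos hH1
  have hgf : ((H : ℝ) - 1) / L ≤ gf (Zf lam m H) := by
    rw [hZ]
    exact div_le_div_of_nonneg_left (by linarith) hlogH0 hlogH
  have hphi0 : (0 : ℝ) < Nat.totient k := by exact_mod_cast Nat.totient_pos.2 hk
  have hkk : kap Q k ≤ (k : ℝ) / Nat.totient k := by
    rw [le_div_iff₀ hphi0]
    exact kap_le_div hQ hk
  have hH1ε : (1 - ε) * H ≤ (H : ℝ) - 1 := by
    rw [div_le_iff₀ hε0] at hLε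
    nlinarith
  obtain ⟨T, hT⟩ : ∃ T, T = C * ((k : ℝ) / Nat.totient k) * gf (Zf lam m H) := ⟨_, rfl⟩
  have hTlow : C * (1 - ε) * (kap Q k * (H / L)) ≤ T := by
    rw [hT]
    calc C * (1 - ε) * (kap Q k * (H / L)) = C * kap Q k * (((1 - ε) * H) / L) := by ring
      _ ≤ C * kap Q k * (((H : ℝ) - 1) / L) := by
          apply mul_le_mul_of_nonneg_left _ (by positivity)
          exact div_le_div_of_nonneg_right hH1ε hL0.le
      _ ≤ C * ((k : ℝ) / Nat.totient k) * gf (Zf lam m H) := by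
          apply mul_le_mul _ hgf (div_nonneg (by linarith) hL0.le) (by positivity)
          exact mul_le_mul_of_nonneg_left hkk (by linarith)
  rw [← hT]
  have htail := tail_up (μ := μ) (J := win m k H) (G := El A) (fun n _ => meas_el hA n) (mutual_el hA _) hε0.le T
  rw [sum_congr rfl (fun n _ => real_el hA n)] at htail
  refine htail.trans ?_
  rw [Real.rpow_def_of_pos hm0, Real.exp_le_exp, ← hL]
  obtain ⟨U, hU⟩ : ∃ U, U = kap Q k * (H / L) := ⟨_, rfl⟩
  rw [← hU] at hmean hTlow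
  have hU0 : L ^ 4 ≤ U := by
    have e1 : L ^ 4 ≤ H / L := by
      rw [le_div_iff₀ hL0]
      have : L ^ 4 * L = L ^ 5 := by ring
      linarith
    rw [hU]
    have : 0 ≤ H / L := by positivity
    nlinarith
  have hUpos : 0 < U := lt_of_lt_of_le (by positivity) hU0
  have hS0 : 0 ≤ ∑ n ∈ win m k H, level Q n := sum_nonneg (fun n _ => level_nonneg Q n)
  have e1 : Real.exp ε - 1 ≤ ε * (1 + ε) := by
    have e2 : Real.exp ε - 1 - ε ≤ ε ^ 2 :=
      (le_abs_self _).trans (Real.abs_exp_sub_one_sub_id_le (by rw [abs_of_nonneg hε0.le]; linarith))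
    nlinarith
  have e2 : (Real.exp ε - 1) * ∑ n ∈ win m k H, level Q n ≤ ε * (1 + ε) * ((1 + 5 * ε) * U) :=
    mul_le_mul e1 hmean hS0 (by positivity)
  have e3 : ε * (C * (1 - ε) * U) ≤ ε * T := mul_le_mul_of_nonneg_left hTlow hε0.le
  have e4 : (1 + ε) * (1 + 5 * ε) ≤ 1 + 11 * ε := by nlinarith
  have e5 : ε * (1 + ε) * ((1 + 5 * ε) * U) ≤ ε * ((1 + 11 * ε) * U) := by
    have : ε * (1 + ε) * ((1 + 5 * ε) * U) = ε * U * ((1 + ε) * (1 + 5 * ε)) := by ring
    rw [this]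
    have h6 : ε * ((1 + 11 * ε) * U) = ε * U * (1 + 11 * ε) := by ring
    rw [h6]
    exact mul_le_mul_of_nonneg_left e4 (by positivity)
  have e6 : ε * ((1 + 11 * ε) * U) - ε * (C * (1 - ε) * U) = -(ε * ((C - 1) / 2) * U) := by
    have : ε * ((1 + 11 * ε) * U) - ε * (C * (1 - ε) * U) = ε * U * (1 - C + (11 + C) * ε) := by ring
    rw [this, hεC]
    ring
  have e7 : 5 * L ≤ ε * ((C - 1) / 2) * U := by
    have h7 : 0 ≤ ε * ((C - 1) / 2) := mul_nonneg hε0.le (by linarith)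
    have h8 : ε * ((C - 1) / 2) * L ^ 4 ≤ ε * ((C - 1) / 2) * U := mul_le_mul_of_nonneg_left hU0 h7
    refine le_trans ?_ h8
    have h9 : ε * ((C - 1) / 2) * L ^ 4 = ε * ((C - 1) / 2) * L ^ 3 * L := by ring
    rw [h9]
    exact mul_le_mul_of_nonneg_right h2 hL0.le
  have e8 : L * -(5 : ℝ) = -(5 * L) := by ring
  rw [e8]
  linarith

end Pool.Agent.Q112.BT
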