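import Pool.Agent.Q112.BT.Asym

/-!
# The Brun-Titchmarsh inequality in the models: the range where it fails
-/

set_option autoImplicit false

namespace Pool.Agent.Q112.BT

open Finset Filter MeasureTheory ProbabilityTheory Pool.Agent.Q120.GM Pool.Agent.Q112.LE
open scoped Topology

variable {Q : ℕ}
variable {Ω : Type*} [MeasurableSpace Ω] {μ : Measure Ω} [IsProbabilityMeasure μ] {A : Ω → Set ℕ}

/-- The comparison of the bound with the number of elements of the patterns. -/
theorem bound_le (hQ : 1 ≤ Q) {C lam κ : ℝ} (hC : 0 < C) (hlam : 0 < lam) (h : C * lam < κ) :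
    ∃ ε : ℝ, 0 < ε ∧ ∀ᶠ X : ℕ in atTop, ∀ x : ℝ, (X : ℝ) ≤ x → x ≤ 1 + 2 * (Q * X) →
      C * (1 + ε) * gf (lam * Real.log x) ≤ tt κ X := by
  have hCl : 0 < C * lam := by positivity
  obtain ⟨ρ, hρ⟩ : ∃ ρ, ρ = κ / (C * lam) := ⟨_, rfl⟩
  have hρ1 : 1 < ρ := by rw [hρ, one_lt_div hCl]; exact h
  obtain ⟨ε, hε⟩ : ∃ ε, ε = min (1 / 10) ((ρ - 1) / 10) := ⟨_, rfl⟩
  have hε0 : 0 < ε := by rw [hε]; exact lt_min (by norm_num) (by linarith)
  have hε1 : ε ≤ 1 / 10 := by rw [hε]; exact min_le_left _ _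
  have hε2 : ε ≤ (ρ - 1) / 10 := by rw [hε]; exact min_le_right _ _
  refine ⟨ε, hε0, ?_⟩
  have g3 : ∀ᶠ m : ℕ in atTop, Real.exp 1 ≤ lam * Real.log (m : ℝ) := (hL1.const_mul_atTop hlam).eventually_ge_atTop _
  filter_upwards [g3, hL1.eventually_ge_atTop (max 1 (Real.log (3 * Q) / ε)),
    tendsto_loglog.eventually_ge_atTop (max 1 (|Real.log lam| / ε)), eventually_ge_atTop 1] with X k1 k2 k3 hX x hx1 hx2
  have hX0 : (0 : ℝ) < X := by exact_mod_cast hX
  have hX1 : (1 : ℝ) ≤ X := by exact_mod_cast hX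
  have hQ1 : (1 : ℝ) ≤ Q := by exact_mod_cast hQ
  have ht := le_tt κ X
  obtain ⟨L, hL⟩ : ∃ L, L = Real.log (X : ℝ) := ⟨_, rfl⟩
  rw [← hL] at k1 k2 k3 ht
  have hLL1 : 1 ≤ L := (le_max_left _ _).trans k2
  have hLL3 : Real.log (3 * Q) / ε ≤ L := (le_max_right _ _).trans k2
  have hl1 : 1 ≤ Real.log L := (le_max_left _ _).trans k3
  have hl2 : |Real.log lam| / ε ≤ Real.log L := (le_max_right _ _).trans k3
  rw [div_le_iff₀ hε0] at hLL3 hl2
  have hx0 : 0 < x := by linarith
  have hlogx : Real.log x ≤ (1 + ε) * L := by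
    have e1 : x ≤ (3 * Q) * X := by
      have : (1 : ℝ) ≤ Q * X := one_le_mul_of_one_le_of_one_le hQ1 hX1
      linarith
    have e2 := Real.log_le_log hx0 e1
    rw [Real.log_mul (by positivity) hX0.ne', ← hL] at e2
    linarith
  have hLx : L ≤ Real.log x := by rw [hL]; exact Real.log_le_log hX0 hx1
  have e1 : gf (lam * Real.log x) ≤ gf (lam * ((1 + ε) * L)) := by
    refine gf_mono (k1.trans ?_) (mul_le_mul_of_nonneg_left hlogx hlam.le)
    exact mul_le_mul_of_nonneg_left hLx hlam.le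
  have e2 : gf (lam * ((1 + ε) * L)) ≤ lam * ((1 + ε) * L) / ((1 - ε) * Real.log L) := by
    unfold gf
    refine div_le_div_of_nonneg_left (by positivity) (mul_pos (by linarith) (by linarith)) ?_
    rw [Real.log_mul hlam.ne' (by positivity), Real.log_mul (by positivity) (by linarith)]
    have e3 : 0 ≤ Real.log (1 + ε) := Real.log_nonneg (by linarith)
    have e4 := neg_abs_le (Real.log lam)
    linarith
  have e3 : C * (1 + ε) * (lam * ((1 + ε) * L) / ((1 - ε) * Real.log L)) ≤ κ * (L / Real.log L) := by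
    have e4 : C * (1 + ε) * (lam * ((1 + ε) * L) / ((1 - ε) * Real.log L)) =
        C * lam * ((1 + ε) ^ 2 / (1 - ε)) * (L / Real.log L) := by
      have : (1 - ε) ≠ 0 := by linarith
      have : Real.log L ≠ 0 := by linarith
      field_simp
    rw [e4]
    refine mul_le_mul_of_nonneg_right ?_ (div_nonneg (by linarith) (by linarith))
    have e5 : (1 + ε) ^ 2 / (1 - ε) ≤ ρ := by
      rw [div_le_iff₀ (by linarith)]
      nlinarith
    have e6 : κ = C * lam * ρ := by
      rw [hρ]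
      field_simp
    rw [e6]
    exact mul_le_mul_of_nonneg_left e5 hCl.le
  calc C * (1 + ε) * gf (lam * Real.log x) ≤ C * (1 + ε) * (lam * ((1 + ε) * L) / ((1 - ε) * Real.log L)) :=
        mul_le_mul_of_nonneg_left (e1.trans e2) (by positivity)
    _ ≤ κ * (L / Real.log L) := e3
    _ ≤ _ := ht

/-- **Patterns violate the inequality.** -/
theorem viol {S : Set ℕ} (hQ : 1 ≤ Q) {C θ lam κ τ : ℝ} (hC : 0 < C) (hlam : 0 < lam) (h : C * lam < κ) (hτ0 : 0 ≤ τ)
    (hτθ : τ ≤ θ) (hτ1 : τ < 1) {𝒦 : ℕ → Finset ℕ} (h𝒦 : Mods Q τ 𝒦)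
    (hS : ∀ᶠ X : ℕ in atTop, ∃ q ∈ idx Q X (tt κ X) (𝒦 X), ∀ n ∈ pat Q X (tt κ X) q, n ∈ S) :
    ∀ᶠ Y : ℝ in atTop, ∃ x, Y ≤ x ∧ x ≤ 5 * Y ∧ ¬ Ineq S C θ lam x := by
  have hκ : 0 < κ := lt_trans (by positivity) h
  have hQ0 : (0 : ℝ) < Q := by exact_mod_cast hQ
  have hQ1 : (1 : ℝ) ≤ Q := by exact_mod_cast hQ
  obtain ⟨ε, hε, hbound⟩ := bound_le hQ hC hlam h
  -- the statement for natural scales
  have key : ∀ᶠ X : ℕ in atTop, ∃ x : ℕ, Q * X ≤ x ∧ x ≤ 1 + 2 * (Q * X) ∧ ¬ Ineq S C θ lam x := by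
    filter_upwards [hS, hbound, h𝒦.pos, h𝒦.le, h𝒦.phi ε hε, tt_le hκ.le (show 0 < lam / (2 * Q) by positivity),
      one_le_tt hκ, pow_log_le (2 * lam) 1 (show 0 < 1 - τ by linarith), hL1.eventually_ge_atTop (max (max 1 (2 / lam)) (Real.log (3 * Q))),
      (hL1.const_mul_atTop hlam).eventually_ge_atTop (Real.exp 1), eventually_ge_atTop 1] with X k1 k2 k3 k4 k5 k6 k7 k8 k9 k10 hX
    obtain ⟨q, hq, hpat⟩ := k1
    obtain ⟨t, ht⟩ : ∃ t, t = tt κ X := ⟨_, rfl⟩
    rw [← ht] at hq hpat k2 k6 k7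
    have hX0 : (0 : ℝ) < X := by exact_mod_cast hX
    have hX1 : (1 : ℝ) ≤ X := by exact_mod_cast hX
    obtain ⟨L, hL⟩ : ∃ L, L = Real.log (X : ℝ) := ⟨_, rfl⟩
    rw [← hL] at k6 k8 k9 k10
    rw [pow_one] at k8
    have hLL1 : 1 ≤ L := ((le_max_left _ _).trans (le_max_left _ _)).trans k9
    have hLL2 : 2 / lam ≤ L := ((le_max_right _ _).trans (le_max_left _ _)).trans k9
    have hLL3 : Real.log (3 * Q) ≤ L := (le_max_right _ _).trans k9
    rw [div_le_iff₀ hlam] at hLL2
    obtain ⟨x, hx⟩ : ∃ x, x = 1 + Q * (X + q.2.2 + q.1 * (t * q.2.1 + (t - 1))) := ⟨_, rfl⟩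
    have hxpat : x ∈ pat Q X t q := by
      unfold pat
      rw [mem_image]
      exact ⟨t - 1, mem_range.2 (by omega), hx.symm⟩
    obtain ⟨x1, x2, _⟩ := pat_range hq hxpat
    refine ⟨x, by omega, x2, ?_⟩
    obtain ⟨q1, q2, q3, q4⟩ := mem_idx.1 hq
    obtain ⟨k, hk⟩ : ∃ k, k = q.1 := ⟨_, rfl⟩
    have hk1 : 1 ≤ k := by rw [hk]; exact k3 _ q1
    have hk0 : (0 : ℝ) < k := by exact_mod_cast hk1
    have hkX : (k : ℝ) ≤ (X : ℝ) ^ τ := by rw [hk]; exact k4 _ q1
    have hkphi : (k : ℝ) ≤ (1 + ε) * Nat.totient k := by rw [hk]; exact k5 _ q1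
    have hXx : (X : ℝ) ≤ x := by
      have : X ≤ x := by
        have : 1 * X ≤ Q * X := Nat.mul_le_mul_right X hQ
        omega
      exact_mod_cast this
    have hx2 : (x : ℝ) ≤ 1 + 2 * (Q * X) := by exact_mod_cast x2
    have hx0 : (0 : ℝ) < x := by linarith
    have hx1' : (1 : ℝ) ≤ x := by linarith
    have hLx : L ≤ Real.log x := by rw [hL]; exact Real.log_le_log hX0 hXx
    have hxL : Real.log x ≤ 2 * L := by
      have e1 : (x : ℝ) ≤ (3 * Q) * X := by
        have : (1 : ℝ) ≤ Q * X := one_le_mul_of_one_le_of_one_le hQ1 hX1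
        linarith
      have e2 := Real.log_le_log hx0 e1
      rw [Real.log_mul (by positivity) hX0.ne', ← hL] at e2
      linarith
    intro hI
    have hcop : Nat.Coprime x k := by
      have e1 : x = (1 + Q * (X + q.2.2)) + k * (Q * (t * q.2.1 + (t - 1))) := by
        rw [hx, ← hk]
        ring
      rw [e1, Nat.coprime_add_mul_left_left, hk]
      exact q4
    have h2 := hI k x (lam * k * Real.log x) hk1 (by
        refine hkX.trans ?_
        calc (X : ℝ) ^ τ ≤ (x : ℝ) ^ τ := Real.rpow_le_rpow hX0.le hXx hτ0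
          _ ≤ (x : ℝ) ^ θ := Real.rpow_le_rpow_of_exponent_le hx1' hτθ) hcop (by
        have e1 : 1 < lam * Real.log x := by
          have : lam * L ≤ lam * Real.log x := mul_le_mul_of_nonneg_left hLx hlam.le
          linarith
        nlinarith) le_rfl (by
        have e1 : lam * k * Real.log x ≤ (k : ℝ) * (2 * lam * L) := by
          have : lam * k * Real.log x ≤ lam * k * (2 * L) := mul_le_mul_of_nonneg_left hxL (by positivity)
          linarith
        have e2 : (k : ℝ) * (2 * lam * L) ≤ (X : ℝ) ^ τ * (X : ℝ) ^ (1 - τ) := mul_le_mul hkX k8 (by positivity) (by positivity)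
        rw [← Real.rpow_add hX0] at e2
        have e3 : (X : ℝ) ^ (τ + (1 - τ)) = X := by norm_num
        rw [e3] at e2
        linarith)
    -- the number of elements
    have hcount : (t : ℝ) ≤ count S x (lam * k * Real.log x) k x := by
      unfold count
      have e1 : ((pat Q X t q : Finset ℕ) : Set ℕ) ⊆
          {n : ℕ | n ∈ S ∧ (x : ℝ) - lam * k * Real.log x < n ∧ (n : ℝ) ≤ x ∧ n % k = x % k} := by
        intro n hn
        rw [mem_coe] at hn
        refine ⟨hpat n hn, ?_⟩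
        unfold pat at hn
        rw [mem_image] at hn
        obtain ⟨i, hi, hin⟩ := hn
        rw [mem_range] at hi
        rw [← hk] at hin hx
        have e2 : x = n + Q * (k * (t - 1 - i)) := by
          rw [← hin, hx]
          have e3 : t * q.2.1 + (t - 1) = (t * q.2.1 + i) + (t - 1 - i) := by omega
          rw [e3]
          ring
        have e3 : (x : ℝ) = n + Q * (k * ((t - 1 - i : ℕ) : ℝ)) := by
          exact_mod_cast e2
        have e4 : ((t - 1 - i : ℕ) : ℝ) ≤ t := by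
          have : t - 1 - i ≤ t := by omega
          exact_mod_cast this
        refine ⟨?_, ?_, ?_⟩
        · rw [e3]
          have e5 : (Q : ℝ) * t ≤ lam / 2 * L := by
            have := mul_le_mul_of_nonneg_left k6 hQ0.le
            have e6 : (Q : ℝ) * (lam / (2 * Q) * L) = lam / 2 * L := by field_simp
            linarith
          have e6 : (Q : ℝ) * (k * ((t - 1 - i : ℕ) : ℝ)) ≤ k * (Q * t) := by
            have : (Q : ℝ) * k * ((t - 1 - i : ℕ) : ℝ) ≤ Q * k * t := mul_le_mul_of_nonneg_left e4 (by positivity)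
            linarith
          have e7 : (k : ℝ) * (Q * t) ≤ k * (lam / 2 * L) := mul_le_mul_of_nonneg_left e5 hk0.le
          have e8 : lam * k * L ≤ lam * k * Real.log x := mul_le_mul_of_nonneg_left hLx (by positivity)
          have e9 : 0 < lam * k * L := by positivity
          rw [← e3]
          linarith
        · rw [e3]
          have : 0 ≤ (Q : ℝ) * (k * ((t - 1 - i : ℕ) : ℝ)) := by positivity
          linarith
        · rw [e2]
          have e5 : n + Q * (k * (t - 1 - i)) = n + k * (Q * (t - 1 - i)) := by ring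
          rw [e5, Nat.add_mul_mod_self_left]
      have hfin : Set.Finite {n : ℕ | n ∈ S ∧ (x : ℝ) - lam * k * Real.log x < n ∧ (n : ℝ) ≤ x ∧ n % k = x % k} := by
        refine (Set.finite_Iic x).subset (fun n hn => ?_)
        have : (n : ℝ) ≤ x := hn.2.2.1
        exact_mod_cast this
      have e2 := Set.ncard_le_ncard e1 hfin
      rw [Set.ncard_coe_finset, card_pat hQ (by rw [← hk]; exact hk1)] at e2
      exact_mod_cast e2
    have hval : C * (lam * k * Real.log x) / (Nat.totient k * Real.log (lam * k * Real.log x / k)) ≤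
        C * (1 + ε) * gf (lam * Real.log x) := by
      have e1 : lam * k * Real.log x / k = lam * Real.log x := by field_simp
      rw [e1]
      have hphi0 : (0 : ℝ) < Nat.totient k := by exact_mod_cast Nat.totient_pos.2 hk1
      have e2 : C * (lam * k * Real.log x) / (Nat.totient k * Real.log (lam * Real.log x)) =
          C * (k / Nat.totient k) * gf (lam * Real.log x) := by
        unfold gf
        field_simp
      rw [e2]
      have e3 : (k : ℝ) / Nat.totient k ≤ 1 + ε := by rwa [div_le_iff₀ hphi0]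
      have e4 : 0 ≤ gf (lam * Real.log x) := gf_nonneg (by
        have : lam * L ≤ lam * Real.log x := mul_le_mul_of_nonneg_left hLx hlam.le
        linarith)
      exact mul_le_mul_of_nonneg_right (mul_le_mul_of_nonneg_left e3 hC.le) e4
    have h3 := k2 x hXx hx2
    linarith
  obtain ⟨X₀, hX₀⟩ := eventually_atTop.1 key
  filter_upwards [eventually_ge_atTop ((Q : ℝ) * X₀), eventually_ge_atTop (1 + 2 * (Q : ℝ))] with Y hY1 hY2
  have hY0 : 0 < Y := by linarith
  obtain ⟨X, hX⟩ : ∃ X, X = ⌈Y / Q⌉₊ := ⟨_, rfl⟩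
  have e1 : Y / Q ≤ X := by rw [hX]; exact Nat.le_ceil _
  have e2 : (X : ℝ) < Y / Q + 1 := by rw [hX]; exact Nat.ceil_lt_add_one (by positivity)
  have e3 : X₀ ≤ X := by
    have : (X₀ : ℝ) ≤ X := by
      refine le_trans ?_ e1
      rw [le_div_iff₀ hQ0]
      linarith
    exact_mod_cast this
  obtain ⟨x, h1, h2, h3⟩ := hX₀ X e3
  refine ⟨x, ?_, ?_, h3⟩
  · have e4 : (Q : ℝ) * X ≤ x := by exact_mod_cast h1
    rw [div_le_iff₀ hQ0] at e1
    linarith
  · have e4 : (x : ℝ) ≤ 1 + 2 * (Q * X) := by exact_mod_cast h2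
    have e5 : (Q : ℝ) * X ≤ Y + Q := by
      have e6 : (Q : ℝ) * X ≤ Q * (Y / Q + 1) := mul_le_mul_of_nonneg_left e2.le hQ0.le
      have e7 : (Q : ℝ) * (Y / Q + 1) = Y + Q := by field_simp
      linarith
    linarith

end Pool.Agent.Q112.BT
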