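import Pool.Agent.Q112.LE.TailLaw

/-!
# Expected numbers in windows of progressions
-/

set_option autoImplicit false

namespace Pool.Agent.Q112.BT

open Finset Filter MeasureTheory Pool.Agent.Q120.GM Pool.Agent.Q112.LE
open scoped Topology

variable {Q : ℕ}

/-- The terms `m, m - k, …, m - k (H - 1)`. -/
def win (m k H : ℕ) : Finset ℕ := (range H).image (fun j => m - k * j)

theorem card_win_le (m k H : ℕ) : (win m k H).card ≤ H := by
  have := card_image_le (s := range H) (f := fun j => m - k * j)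
  rwa [card_range] at this

theorem sum_win {m k H : ℕ} (hk : 1 ≤ k) (hH : k * (H - 1) ≤ m) (f : ℕ → ℝ) :
    ∑ n ∈ win m k H, f n = ∑ j ∈ range H, f (m - k * j) := by
  unfold win
  refine sum_image (fun a ha b hb hab => ?_)
  rw [mem_coe, mem_range] at ha hb
  have h1 : k * a ≤ m := (Nat.mul_le_mul_left k (by omega)).trans hH
  have h2 : k * b ≤ m := (Nat.mul_le_mul_left k (by omega)).trans hH
  have h3 : m - k * a = m - k * b := hab
  have h4 : k * a = k * b := by omega
  exact Nat.eq_of_mul_eq_mul_left (by omega) h4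

/-- The sum over a progression. -/
theorem sum_prog_le (hQ : 1 ≤ Q) {a k : ℕ} (hg : Nat.gcd a (Nat.gcd k Q) = 1) {z : ℝ} (hz0 : 0 < z) (hz : 0 < Real.log z)
    {H : ℕ} (h : ∀ j < H, z ≤ ((a + k * j : ℕ) : ℝ)) :
    ∑ j ∈ range H, level Q (a + k * j) ≤ ((H : ℝ) + Q) * kap Q k / Real.log z := by
  have hI : range H = Ico 0 (0 + H) := by
    rw [zero_add, range_eq_Ico]
  have hcop : ∀ j : ℕ, (a + k * j).Coprime Q ↔ Int.gcd ((a : ℤ) + k * j) Q = 1 := by
    intro j
    have h1 : (a : ℤ) + k * j = ((a + k * j : ℕ) : ℤ) := by push_cast; ring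
    rw [h1, Int.gcd_natCast_natCast]
  have h1 : ∑ j ∈ range H, level Q (a + k * j) =
      ∑ j ∈ (range H).filter (fun j : ℕ => Int.gcd ((a : ℤ) + k * j) Q = 1), level Q (a + k * j) := by
    refine (sum_filter_of_ne (fun j hj hne => ?_)).symm
    by_contra hcon
    apply hne
    unfold level
    rw [if_neg]
    rwa [hcop]
  rw [h1]
  have h2 : ∀ j ∈ (range H).filter (fun j : ℕ => Int.gcd ((a : ℤ) + k * j) Q = 1),
      level Q (a + k * j) ≤ qq Q / Real.log z := by
    intro j hj
    rw [mem_filter, mem_range] at hj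
    exact level_le hz hz0 (h j hj.1)
  refine (sum_le_sum h2).trans ?_
  rw [sum_const, nsmul_eq_mul, hI]
  have h4 := (count_per hQ _ (per_int Q (a : ℤ) k) 0 H).2
  have hq := qq_pos hQ
  have h5 := mul_le_mul_of_nonneg_right h4 (show 0 ≤ qq Q / Real.log z by positivity)
  refine h5.trans (le_of_eq ?_)
  have hg' : Int.gcd (a : ℤ) (Nat.gcd k Q) = 1 := by rwa [Int.gcd_natCast_natCast]
  have h6 := cnt_qq hQ hg'
  unfold cnt at h6
  rw [← h6]
  ring

theorem sum_desc_le (hQ : 1 ≤ Q) {m k : ℕ} (hg : Nat.Coprime m k) {z : ℝ} (hz0 : 0 < z) (hz : 0 < Real.log z)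
    {H : ℕ} (hH : k * (H - 1) ≤ m) (h : ∀ j < H, z ≤ ((m - k * j : ℕ) : ℝ)) :
    ∑ j ∈ range H, level Q (m - k * j) ≤ ((H : ℝ) + Q) * kap Q k / Real.log z := by
  obtain ⟨a, ha⟩ : ∃ a, a = m - k * (H - 1) := ⟨_, rfl⟩
  have h1 : ∑ j ∈ range H, level Q (m - k * j) = ∑ j ∈ range H, level Q (a + k * j) := by
    rw [← sum_range_reflect]
    refine sum_congr rfl (fun j hj => ?_)
    rw [mem_range] at hj
    congr 1
    have h2 : k * (H - 1) = k * (H - 1 - j) + k * j := by
      rw [← Nat.mul_add]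
      congr 1
      omega
    omega
  rw [h1]
  have hga : Nat.Coprime a k := by
    have h3 : a + k * (H - 1) = m := by omega
    rw [← h3, Nat.coprime_add_mul_left_left] at hg
    exact hg
  refine sum_prog_le hQ (Nat.Coprime.coprime_dvd_right (Nat.gcd_dvd_left k Q) hga) hz0 hz (fun j hj => ?_)
  have h2 : k * (H - 1) = k * (H - 1 - j) + k * j := by
    rw [← Nat.mul_add]
    congr 1
    omega
  have h3 := h (H - 1 - j) (by omega)
  have h4 : m - k * (H - 1 - j) = a + k * j := by omega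
  rwa [h4] at h3

/-- The expected number in a window, with the contribution of the small terms. -/
theorem mean_le (hQ : 1 ≤ Q) {m k H : ℕ} (hk : 1 ≤ k) (hH : k * (H - 1) ≤ m) (hg : Nat.Coprime m k) {z : ℝ}
    (hz0 : 0 < z) (hz : 0 < Real.log z) :
    ∑ n ∈ win m k H, level Q n ≤ ((H : ℝ) + Q) * kap Q k / Real.log z + (z / k + 1) := by
  have hk0 : (0 : ℝ) < k := by exact_mod_cast hk
  rw [sum_win hk hH]
  obtain ⟨H₁, hH₁⟩ : ∃ H₁, H₁ = ((range H).filter (fun j => z ≤ ((m - k * j : ℕ) : ℝ))).card := ⟨_, rfl⟩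
  -- the terms above `z` form an initial segment
  have hseg : (range H).filter (fun j => z ≤ ((m - k * j : ℕ) : ℝ)) = range H₁ := by
    have hdown : ∀ i j : ℕ, i ≤ j → j ∈ (range H).filter (fun j => z ≤ ((m - k * j : ℕ) : ℝ)) →
        i ∈ (range H).filter (fun j => z ≤ ((m - k * j : ℕ) : ℝ)) := by
      intro i j hij hj
      rw [mem_filter, mem_range] at hj ⊢
      refine ⟨by omega, hj.2.trans ?_⟩
      have : m - k * j ≤ m - k * i := Nat.sub_le_sub_left (Nat.mul_le_mul_left k hij) m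
      exact_mod_cast this
    ext j
    rw [mem_range, hH₁]
    constructor
    · intro hj
      have h1 : range (j + 1) ⊆ (range H).filter (fun j => z ≤ ((m - k * j : ℕ) : ℝ)) := by
        intro i hi
        rw [mem_range] at hi
        exact hdown i j (by omega) hj
      have h2 := card_le_card h1
      rw [card_range] at h2
      omega
    · intro hj
      by_contra hcon
      have h1 : (range H).filter (fun j => z ≤ ((m - k * j : ℕ) : ℝ)) ⊆ range j := by
        intro i hi
        rw [mem_range]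
        by_contra hc
        exact hcon (hdown j i (by omega) hi)
      have h2 := card_le_card h1
      rw [card_range] at h2
      omega
  rw [← sum_filter_add_sum_filter_not (range H) (fun j => z ≤ ((m - k * j : ℕ) : ℝ)), hseg]
  have hH₁H : H₁ ≤ H := by
    rw [hH₁]
    have := card_filter_le (range H) (fun j => z ≤ ((m - k * j : ℕ) : ℝ))
    rwa [card_range] at this
  have hkap := kap_pos hQ k
  have e1 : ∑ j ∈ range H₁, level Q (m - k * j) ≤ ((H : ℝ) + Q) * kap Q k / Real.log z := by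
    refine (sum_desc_le hQ hg hz0 hz ((Nat.mul_le_mul_left k (by omega)).trans hH) (fun j hj => ?_)).trans ?_
    · have h1 : j ∈ (range H).filter (fun j => z ≤ ((m - k * j : ℕ) : ℝ)) := by
        rw [hseg, mem_range]
        exact hj
      rw [mem_filter] at h1
      exact h1.2
    · have : (H₁ : ℝ) ≤ H := by exact_mod_cast hH₁H
      gcongr
  have e2 : ∑ j ∈ (range H).filter (fun j => ¬ z ≤ ((m - k * j : ℕ) : ℝ)), level Q (m - k * j) ≤ z / k + 1 := by
    refine (sum_le_card_nsmul _ _ 1 (fun j _ => level_le_one Q _)).trans ?_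
    rw [nsmul_eq_mul, mul_one]
    -- the indices lie in an interval of length `z / k`
    have h1 : (range H).filter (fun j => ¬ z ≤ ((m - k * j : ℕ) : ℝ)) ⊆
        (range (⌊z / k⌋₊ + 1)).image (fun i => m / k - i) := by
      intro j hj
      rw [mem_filter, mem_range] at hj
      obtain ⟨hj1, hj2⟩ := hj
      push Not at hj2
      have hkj : k * j ≤ m := (Nat.mul_le_mul_left k (by omega)).trans hH
      have hjm : j ≤ m / k := (Nat.le_div_iff_mul_le (by omega)).2 (by linarith [mul_comm k j])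
      rw [mem_image]
      refine ⟨m / k - j, ?_, by omega⟩
      rw [mem_range]
      have h2 : m / k - j ≤ ⌊z / k⌋₊ := by
        apply Nat.le_floor
        rw [le_div_iff₀ hk0]
        have h3 : (m / k - j) * k ≤ m - k * j := by
          rw [Nat.sub_mul, mul_comm j k]
          exact Nat.sub_le_sub_right (Nat.div_mul_le_self m k) _
        have h4 : (((m / k - j : ℕ) : ℝ)) * k ≤ ((m - k * j : ℕ) : ℝ) := by exact_mod_cast h3
        linarith
      omega
    have h2 := card_le_card h1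
    have h3 := h2.trans card_image_le
    rw [card_range] at h3
    have h4 : (((range H).filter (fun j => ¬ z ≤ ((m - k * j : ℕ) : ℝ))).card : ℝ) ≤ ⌊z / k⌋₊ + 1 := by exact_mod_cast h3
    have h5 := Nat.floor_le (show 0 ≤ z / k by positivity)
    linarith
  linarith

/-- If all terms exceed `z`. -/
theorem mean_le' (hQ : 1 ≤ Q) {m k H : ℕ} {z : ℝ} (hz0 : 0 < z) (hz : 0 < Real.log z)
    (h : ∀ n ∈ win m k H, z ≤ (n : ℝ)) : ∑ n ∈ win m k H, level Q n ≤ H * (qq Q / Real.log z) := by
  refine (sum_le_card_nsmul _ _ (qq Q / Real.log z) (fun n hn => level_le hz hz0 (h n hn))).trans ?_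
  rw [nsmul_eq_mul]
  have h1 : ((win m k H).card : ℝ) ≤ H := by exact_mod_cast card_win_le m k H
  have hq := qq_pos hQ
  exact mul_le_mul_of_nonneg_right h1 (by positivity)

/-- `g / φ(g) ≤ k / φ(k)`. -/
theorem kap_le_div (hQ : 1 ≤ Q) {k : ℕ} (hk : 1 ≤ k) : kap Q k * (Nat.totient k : ℝ) ≤ k := by
  obtain ⟨g, hg⟩ : ∃ g, g = Nat.gcd k Q := ⟨_, rfl⟩
  have hg0 : 0 < g := by rw [hg]; exact Nat.gcd_pos_of_pos_left Q (by omega)
  have hgk : g ∣ k := by rw [hg]; exact Nat.gcd_dvd_left k Q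
  have h1 : (Nat.totient k : ℚ) * g ≤ (Nat.totient g : ℚ) * k := by
    rw [Nat.totient_eq_mul_prod_factors k, Nat.totient_eq_mul_prod_factors g]
    have h2 : g.primeFactors ⊆ k.primeFactors := Nat.primeFactors_mono hgk (by omega)
    have hnn : ∀ p ∈ k.primeFactors, (0 : ℚ) ≤ 1 - (p : ℚ)⁻¹ ∧ 1 - (p : ℚ)⁻¹ ≤ 1 := by
      intro p hp
      have h3 : (1 : ℚ) ≤ p := by exact_mod_cast (Nat.prime_of_mem_primeFactors hp).one_lt.le
      constructor
      · rw [sub_nonneg]
        exact inv_le_one_of_one_le₀ h3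
      · have : (0 : ℚ) ≤ (p : ℚ)⁻¹ := by positivity
        linarith
    have h4 : ∏ p ∈ k.primeFactors, (1 - (p : ℚ)⁻¹) ≤ ∏ p ∈ g.primeFactors, (1 - (p : ℚ)⁻¹) := by
      rw [← Finset.prod_sdiff h2]
      refine mul_le_of_le_one_left (prod_nonneg (fun p hp => (hnn p (h2 hp)).1)) ?_
      exact prod_le_one (fun p hp => (hnn p (mem_sdiff.1 hp).1).1) (fun p hp => (hnn p (mem_sdiff.1 hp).1).2)
    have h5 : (0 : ℚ) ≤ (g : ℚ) * k := by positivity
    nlinarith
  have h2 : (Nat.totient k : ℝ) * g ≤ (Nat.totient g : ℝ) * k := by exact_mod_cast h1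
  have h3 : (0 : ℝ) < Nat.totient g := by exact_mod_cast Nat.totient_pos.2 hg0
  unfold kap
  rw [← hg, div_mul_eq_mul_div, div_le_iff₀ h3]
  linarith

end Pool.Agent.Q112.BT
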