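import Pool.Agent.Q112.BT.Lower
import Pool.Agent.Q120.GM.APPrimes

/-!
# Sets of moduli; the full statement
-/

set_option autoImplicit false

namespace Pool.Agent.Q112.BT

open Finset Filter MeasureTheory ProbabilityTheory Pool.Agent.Q120.GM Pool.Agent.Q112.LE
open scoped Topology

variable {Q : ℕ}
variable {Ω : Type*} [MeasurableSpace Ω] {μ : Measure Ω} [IsProbabilityMeasure μ] {A : Ω → Set ℕ}

theorem mods_one (Q : ℕ) : Mods Q 0 (fun _ => {1}) := by
  refine ⟨?_, ?_, ?_, ?_, ?_, ?_⟩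
  · filter_upwards with X k hk
    rw [mem_singleton] at hk
    omega
  · filter_upwards with X k hk
    rw [mem_singleton] at hk
    subst hk
    simp
  · filter_upwards with X k hk k' hk' hne
    rw [mem_singleton] at hk hk'
    exact absurd (hk.trans hk'.symm) hne
  · filter_upwards with X k hk B
    rw [mem_singleton] at hk
    subst hk
    have h1 : (range 1).filter (fun r => Nat.Coprime (1 + Q * (B + r)) 1) = {0} := by
      ext r
      rw [mem_filter, mem_range, mem_singleton]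
      constructor
      · rintro ⟨h, _⟩
        omega
      · rintro rfl
        exact ⟨by omega, Nat.coprime_one_right _⟩
    rw [h1, card_singleton]
    norm_num
  · intro ε hε
    filter_upwards with X k hk
    rw [mem_singleton] at hk
    subst hk
    simp
    exact hε.le
  · intro ε hε
    filter_upwards [eventually_ge_atTop 1] with X hX
    have hX1 : (1 : ℝ) ≤ X := by exact_mod_cast hX
    rw [card_singleton, Nat.cast_one, zero_sub]
    exact Real.rpow_le_one_of_one_le_of_nonpos hX1 (by linarith)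

/-- The exponent of the scale of the moduli. -/
noncomputable def jj (τ : ℝ) (X : ℕ) : ℕ := Nat.log 2 ⌊(X : ℝ) ^ τ⌋₊

theorem jj_tendsto {τ : ℝ} (hτ : 0 < τ) : Tendsto (jj τ) atTop atTop := by
  refine tendsto_atTop.2 (fun N => ?_)
  filter_upwards [ev_rpow ((2 : ℝ) ^ N) hτ] with X hX
  unfold jj
  refine Nat.le_log_of_pow_le (by norm_num) ?_
  apply Nat.le_floor
  push_cast
  exact hX

theorem jj_bounds {τ : ℝ} (hτ : 0 < τ) : ∀ᶠ X : ℕ in atTop, (2 : ℝ) ^ jj τ X ≤ (X : ℝ) ^ τ ∧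
    (X : ℝ) ^ τ / 4 ≤ (2 : ℝ) ^ jj τ X := by
  filter_upwards [ev_rpow 2 hτ] with X hX
  have h0 : 0 < (X : ℝ) ^ τ := by linarith
  have h1 : ⌊(X : ℝ) ^ τ⌋₊ ≠ 0 := by
    have : 1 ≤ ⌊(X : ℝ) ^ τ⌋₊ := Nat.le_floor (by push_cast; linarith)
    omega
  have h2 := Nat.pow_log_le_self 2 h1
  have h3 := Nat.lt_pow_succ_log_self (b := 2) (by norm_num) ⌊(X : ℝ) ^ τ⌋₊
  have h4 : ((2 : ℝ)) ^ jj τ X ≤ ⌊(X : ℝ) ^ τ⌋₊ := by
    unfold jj
    exact_mod_cast h2
  have h5 : ((⌊(X : ℝ) ^ τ⌋₊ : ℕ) : ℝ) < 2 ^ (jj τ X + 1) := by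
    unfold jj
    exact_mod_cast h3
  have h6 := Nat.floor_le h0.le
  have h7 := Nat.lt_floor_add_one ((X : ℝ) ^ τ)
  refine ⟨h4.trans h6, ?_⟩
  rw [pow_succ] at h5
  linarith

theorem card_res {k : ℕ} (hk : k.Prime) (hkQ : Q < k) (hQ : 1 ≤ Q) (B : ℕ) :
    (k : ℝ) / 2 ≤ (((range k).filter (fun r => Nat.Coprime (1 + Q * (B + r)) k)).card : ℝ) := by
  have h1 : ((range k).filter (fun r => ¬ Nat.Coprime (1 + Q * (B + r)) k)).card ≤ 1 := by
    rw [card_le_one]
    intro a ha b hb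
    rw [mem_filter, mem_range] at ha hb
    have hdvd : ∀ c : ℕ, ¬ Nat.Coprime (1 + Q * (B + c)) k → (k : ℤ) ∣ (1 + Q * (B + c) : ℕ) := by
      intro c hc
      rw [Nat.coprime_comm, hk.coprime_iff_not_dvd, not_not] at hc
      exact_mod_cast hc
    have e1 := hdvd a ha.2
    have e2 := hdvd b hb.2
    have e3 := dvd_sub e1 e2
    have e4 : ((1 + Q * (B + a) : ℕ) : ℤ) - ((1 + Q * (B + b) : ℕ) : ℤ) = Q * ((a : ℤ) - b) := by
      push_cast
      ring
    rw [e4] at e3
    have e5 : IsCoprime (k : ℤ) (Q : ℤ) := by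
      rw [Nat.isCoprime_iff_coprime, hk.coprime_iff_not_dvd]
      intro hd
      have := Nat.le_of_dvd (by omega) hd
      omega
    have e6 := e5.dvd_of_dvd_mul_left e3
    have e7 : (a : ℤ) - b = 0 := by
      apply Int.eq_zero_of_abs_lt_dvd e6
      rw [abs_lt]
      constructor <;> omega
    omega
  have h2 := card_filter_add_card_filter_not (s := range k) (fun r => Nat.Coprime (1 + Q * (B + r)) k)
  rw [card_range] at h2
  have h3 : k ≤ ((range k).filter (fun r => Nat.Coprime (1 + Q * (B + r)) k)).card + 1 := by omega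
  have h4 : (k : ℝ) ≤ ((range k).filter (fun r => Nat.Coprime (1 + Q * (B + r)) k)).card + 1 := by exact_mod_cast h3
  have h5 : (2 : ℝ) ≤ k := by exact_mod_cast hk.two_le
  linarith

theorem mods_primes (hQ : 1 ≤ Q) {τ : ℝ} (hτ : 0 < τ) : Mods Q τ (fun X => pk (jj τ X)) := by
  have hge : ∀ M : ℝ, ∀ᶠ X : ℕ in atTop, ∀ k ∈ pk (jj τ X), M ≤ k := by
    intro M
    filter_upwards [jj_bounds hτ, ev_rpow (32 * M) hτ] with X h1 h2 k hk
    rw [mem_pk] at hk
    have h3 : (2 : ℝ) ^ jj τ X < 8 * k := by exact_mod_cast hk.2.2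
    linarith [h1.2]
  refine ⟨?_, ?_, ?_, ?_, ?_, ?_⟩
  · filter_upwards with X k hk
    rw [mem_pk] at hk
    exact hk.2.1.one_lt.le
  · filter_upwards [jj_bounds hτ] with X h1 k hk
    rw [mem_pk] at hk
    have : (k : ℝ) ≤ 2 ^ jj τ X := by exact_mod_cast hk.1
    exact this.trans h1.1
  · filter_upwards [jj_bounds hτ, log_le_rpow 32 hτ] with X h1 h2 k hk k' hk' hne
    rw [mem_pk] at hk hk'
    refine ⟨(Nat.coprime_primes hk.2.1 hk'.2.1).2 hne, ?_⟩
    have h3 : (2 : ℝ) ^ jj τ X < 8 * k := by exact_mod_cast hk.2.2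
    linarith [h1.2]
  · filter_upwards [hge (Q + 1)] with X h1 k hk B
    have h2 := h1 k hk
    rw [mem_pk] at hk
    have h3 : Q < k := by
      have : ((Q + 1 : ℕ) : ℝ) ≤ k := by push_cast; exact h2
      have : Q + 1 ≤ k := by exact_mod_cast this
      omega
    exact card_res hk.2.1 h3 hQ B
  · intro ε hε
    filter_upwards [hge (1 / ε + 1)] with X h1 k hk
    have h2 := h1 k hk
    rw [mem_pk] at hk
    rw [Nat.totient_prime hk.2.1, Nat.cast_sub hk.2.1.one_lt.le]
    have h3 : 1 / ε ≤ (k : ℝ) - 1 := by linarith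
    rw [div_le_iff₀ hε] at h3
    push_cast
    nlinarith
  · intro ε hε
    filter_upwards [jj_bounds hτ, (jj_tendsto hτ).eventually card_pk, pow_log_le (8 * τ) 1 hε,
      hL1.eventually_ge_atTop 1, eventually_ge_atTop 1] with X h1 h2 h3 h4 hX
    have hX0 : (0 : ℝ) < X := by exact_mod_cast hX
    rw [pow_one] at h3
    have h5 : Real.log ((2 : ℝ) ^ jj τ X) ≤ τ * Real.log X := by
      rw [← Real.log_rpow hX0]
      exact Real.log_le_log (by positivity) h1.1
    have hc0 : (0 : ℝ) ≤ (pk (jj τ X)).card := Nat.cast_nonneg _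
    have h6 : (X : ℝ) ^ τ / 8 ≤ (pk (jj τ X)).card * (τ * Real.log X) := by
      have := mul_le_mul_of_nonneg_left h5 hc0
      linarith [h1.2]
    have h7 : (X : ℝ) ^ τ ≤ (pk (jj τ X)).card * (X : ℝ) ^ ε := by
      have := mul_le_mul_of_nonneg_left h3 hc0
      linarith
    have h8 : (X : ℝ) ^ τ = (X : ℝ) ^ (τ - ε) * (X : ℝ) ^ ε := by
      rw [← Real.rpow_add hX0]
      congr 1
      ring
    rw [h8] at h7
    exact le_of_mul_le_mul_right h7 (by positivity)

/-- **The range where the inequality fails.** -/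
theorem bt_lower (hA : IsModel μ (level Q) A) (hQ : 1 ≤ Q) {C θ lam : ℝ} (hC : 0 < C) (hlam : 0 < lam) (hθ0 : 0 ≤ θ)
    (hθ1 : θ < 1) (h : C * lam < 1 + θ) :
    ∀ᵐ ω ∂μ, ∀ᶠ Y : ℝ in atTop, ∃ x, Y ≤ x ∧ x ≤ 5 * Y ∧ ¬ Ineq (A ω) C θ lam x := by
  have hCl : 0 < C * lam := by positivity
  rcases eq_or_lt_of_le hθ0 with h0 | h0
  · -- only the modulus one
    obtain ⟨κ, hκ1, hκ2⟩ := exists_between (show C * lam < 1 by linarith)
    filter_upwards [pat_as hA hQ le_rfl zero_lt_one (show (0 : ℝ) < κ by linarith) (by linarith) (mods_one Q)] with ω hω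
    exact viol hQ hC hlam hκ1 le_rfl hθ0 zero_lt_one (mods_one Q) hω
  · obtain ⟨κ, hκ1, hκ2⟩ := exists_between h
    have hκ0 : 0 < κ := by linarith
    obtain ⟨τ, hτ1, hτ2⟩ := exists_between (show max 0 (κ - 1) < min θ κ by
      refine lt_min (max_lt h0 (by linarith)) (max_lt hκ0 (by linarith)))
    have e1 : 0 < τ := lt_of_le_of_lt (le_max_left _ _) hτ1
    have e2 : κ - 1 < τ := lt_of_le_of_lt (le_max_right _ _) hτ1
    have e3 : τ < θ := lt_of_lt_of_le hτ2 (min_le_left _ _)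
    have e4 : τ < κ := lt_of_lt_of_le hτ2 (min_le_right _ _)
    filter_upwards [pat_as hA hQ e1.le (by linarith) e4 (by linarith) (mods_primes hQ e1)] with ω hω
    exact viol hQ hC hlam hκ1 e1.le e3.le (by linarith) (mods_primes hQ e1) hω

theorem ineq_mono {S : Set ℕ} {C C' θ θ' lam lam' x : ℝ} (hx : 1 ≤ x) (hC : C ≤ C') (hθ : θ' ≤ θ) (hlam : lam ≤ lam')
    (h : Ineq S C θ lam x) : Ineq S C' θ' lam' x := by
  intro k l y h1 h2 h3 h4 h5 h6
  have hk0 : (0 : ℝ) < k := by exact_mod_cast h1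
  have hlx : 0 ≤ Real.log x := Real.log_nonneg hx
  have e1 := h k l y h1 (h2.trans (Real.rpow_le_rpow_of_exponent_le hx hθ)) h3 h4 (by
    refine le_trans ?_ h5
    have : lam * (k * Real.log x) ≤ lam' * (k * Real.log x) := mul_le_mul_of_nonneg_right hlam (by positivity)
    linarith) h6
  refine e1.trans_le ?_
  have hphi0 : (0 : ℝ) < Nat.totient k := by exact_mod_cast Nat.totient_pos.2 h1
  have hlog : 0 < Real.log (y / k) := Real.log_pos (by rwa [one_lt_div hk0])
  refine div_le_div_of_nonneg_right ?_ (by positivity)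
  exact mul_le_mul_of_nonneg_right hC (by linarith)

/-- **The exact range.** -/
theorem bt_law (hA : IsModel μ (level Q) A) (hQ : 1 ≤ Q) :
    ∀ᵐ ω ∂μ, ∀ C θ lam : ℝ, 0 < C → 0 ≤ θ → θ < 1 → 0 < lam →
      (1 < C → 1 + θ < C * lam → ∀ᶠ x : ℝ in atTop, Ineq (A ω) C θ lam x) ∧
      (C * lam < 1 + θ → ∀ᶠ Y : ℝ in atTop, ∃ x, Y ≤ x ∧ x ≤ 5 * Y ∧ ¬ Ineq (A ω) C θ lam x) := by
  have hup : ∀ᵐ ω ∂μ, ∀ c q l : ℚ, 1 < (c : ℝ) → 0 ≤ (q : ℝ) → (q : ℝ) < 1 → 0 < (l : ℝ) → 1 + (q : ℝ) < c * l →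
      ∀ᶠ x : ℝ in atTop, Ineq (A ω) c q l x := by
    rw [ae_all_iff]
    intro c
    rw [ae_all_iff]
    intro q
    rw [ae_all_iff]
    intro l
    by_cases h : 1 < (c : ℝ) ∧ 0 ≤ (q : ℝ) ∧ (q : ℝ) < 1 ∧ 0 < (l : ℝ) ∧ 1 + (q : ℝ) < c * l
    · filter_upwards [bt_upper hA hQ h.1 h.2.2.2.1 h.2.1 h.2.2.1 h.2.2.2.2] with ω hω _ _ _ _ _
      exact hω
    · filter_upwards with ω h1 h2 h3 h4 h5
      exact absurd ⟨h1, h2, h3, h4, h5⟩ h
  have hlo : ∀ᵐ ω ∂μ, ∀ c q l : ℚ, 0 < (c : ℝ) → 0 ≤ (q : ℝ) → (q : ℝ) < 1 → 0 < (l : ℝ) → (c : ℝ) * l < 1 + (q : ℝ) →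
      ∀ᶠ Y : ℝ in atTop, ∃ x, Y ≤ x ∧ x ≤ 5 * Y ∧ ¬ Ineq (A ω) c q l x := by
    rw [ae_all_iff]
    intro c
    rw [ae_all_iff]
    intro q
    rw [ae_all_iff]
    intro l
    by_cases h : 0 < (c : ℝ) ∧ 0 ≤ (q : ℝ) ∧ (q : ℝ) < 1 ∧ 0 < (l : ℝ) ∧ (c : ℝ) * l < 1 + (q : ℝ)
    · filter_upwards [bt_lower hA hQ h.1 h.2.2.2.1 h.2.1 h.2.2.1 h.2.2.2.2] with ω hω _ _ _ _ _
      exact hω
    · filter_upwards with ω h1 h2 h3 h4 h5
      exact absurd ⟨h1, h2, h3, h4, h5⟩ h
  filter_upwards [hup, hlo] with ω h1 h2 C θ lam hC hθ0 hθ1 hlam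
  constructor
  · intro hC1 h
    -- rational `c < C`, `q > θ`, `l < lam`
    obtain ⟨η, hη0, hη⟩ : ∃ η : ℝ, 0 < η ∧ 1 + θ + η < (C - η) * (lam - η) ∧ 1 < C - η ∧ 0 < lam - η ∧ θ + η < 1 := by
      have hcont : Continuous (fun η : ℝ => (C - η) * (lam - η) - (1 + θ + η)) := by fun_prop
      have hpos : 0 < (fun η : ℝ => (C - η) * (lam - η) - (1 + θ + η)) 0 := by simp; linarith
      have hev := hcont.continuousAt.eventually (lt_mem_nhds hpos)
      obtain ⟨δ, hδ0, hδ⟩ := Metric.eventually_nhds_iff.1 hev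
      refine ⟨min (δ / 2) (min ((C - 1) / 2) (min (lam / 2) ((1 - θ) / 2))), ?_, ?_, ?_, ?_, ?_⟩
      · refine lt_min (by positivity) (lt_min (by linarith) (lt_min (by positivity) (by linarith)))
      · have hm0 : 0 < min (δ / 2) (min ((C - 1) / 2) (min (lam / 2) ((1 - θ) / 2))) :=
          lt_min (by positivity) (lt_min (by linarith) (lt_min (by positivity) (by linarith)))
        have := hδ (y := min (δ / 2) (min ((C - 1) / 2) (min (lam / 2) ((1 - θ) / 2)))) (by
          rw [Real.dist_eq, sub_zero, abs_of_pos hm0]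
          exact lt_of_le_of_lt (min_le_left _ _) (by linarith))
        linarith
      · have := (min_le_right (δ / 2) (min ((C - 1) / 2) (min (lam / 2) ((1 - θ) / 2)))).trans (min_le_left _ _)
        linarith
      · have := ((min_le_right (δ / 2) (min ((C - 1) / 2) (min (lam / 2) ((1 - θ) / 2)))).trans (min_le_right _ _)).trans
          (min_le_left _ _)
        linarith
      · have := ((min_le_right (δ / 2) (min ((C - 1) / 2) (min (lam / 2) ((1 - θ) / 2)))).trans (min_le_right _ _)).trans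
          (min_le_right _ _)
        linarith
    obtain ⟨hη1, hη2, hη3, hη4⟩ := hη
    obtain ⟨c, hc1, hc2⟩ := exists_rat_btwn (show C - η < C by linarith)
    obtain ⟨q, hq1, hq2⟩ := exists_rat_btwn (show θ < θ + η by linarith)
    obtain ⟨l, hl1, hl2⟩ := exists_rat_btwn (show lam - η < lam by linarith)
    have hcl : (C - η) * (lam - η) ≤ c * l := mul_le_mul hc1.le hl1.le hη3.le (by linarith)
    filter_upwards [h1 c q l (by linarith) (by linarith) (by linarith) (by linarith) (by linarith),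
      eventually_ge_atTop 1] with x hx hx1
    exact ineq_mono hx1 hc2.le hq1.le hl2.le hx
  · intro h
    rcases eq_or_lt_of_le hθ0 with h0 | h0
    · obtain ⟨η, hη0, hη⟩ : ∃ η : ℝ, 0 < η ∧ (C + η) * (lam + η) < 1 := by
        have hcont : Continuous (fun η : ℝ => 1 - (C + η) * (lam + η)) := by fun_prop
        have hpos : 0 < (fun η : ℝ => 1 - (C + η) * (lam + η)) 0 := by simp; linarith
        have hev := hcont.continuousAt.eventually (lt_mem_nhds hpos)
        obtain ⟨δ, hδ0, hδ⟩ := Metric.eventually_nhds_iff.1 hev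
        refine ⟨δ / 2, by positivity, ?_⟩
        have := hδ (y := δ / 2) (by
          rw [Real.dist_eq, sub_zero, abs_of_pos (by positivity)]
          linarith)
        linarith
      obtain ⟨c, hc1, hc2⟩ := exists_rat_btwn (show C < C + η by linarith)
      obtain ⟨l, hl1, hl2⟩ := exists_rat_btwn (show lam < lam + η by linarith)
      have hcl : (c : ℝ) * l ≤ (C + η) * (lam + η) := mul_le_mul hc2.le hl2.le (by linarith) (by linarith)
      filter_upwards [h2 c 0 l (by linarith) (by simp) (by simp) (by linarith) (by push_cast; linarith),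
        eventually_ge_atTop 1] with Y hY hY1
      obtain ⟨x, hx1, hx2, hx3⟩ := hY
      refine ⟨x, hx1, hx2, fun hI => hx3 ?_⟩
      exact ineq_mono (by linarith) hc1.le (by push_cast; linarith) hl1.le hI
    · obtain ⟨η, hη0, hη1, hη2⟩ : ∃ η : ℝ, 0 < η ∧ (C + η) * (lam + η) < 1 + θ - η ∧ 0 < θ - η := by
        have hcont : Continuous (fun η : ℝ => 1 + θ - η - (C + η) * (lam + η)) := by fun_prop
        have hpos : 0 < (fun η : ℝ => 1 + θ - η - (C + η) * (lam + η)) 0 := by simp; linarith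
        have hev := hcont.continuousAt.eventually (lt_mem_nhds hpos)
        obtain ⟨δ, hδ0, hδ⟩ := Metric.eventually_nhds_iff.1 hev
        have hm0 : 0 < min (δ / 2) (θ / 2) := lt_min (by positivity) (by positivity)
        refine ⟨min (δ / 2) (θ / 2), hm0, ?_, ?_⟩
        · have := hδ (y := min (δ / 2) (θ / 2)) (by
            rw [Real.dist_eq, sub_zero, abs_of_pos hm0]
            exact lt_of_le_of_lt (min_le_left _ _) (by linarith))
          linarith
        · have := min_le_right (δ / 2) (θ / 2)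
          linarith
      obtain ⟨c, hc1, hc2⟩ := exists_rat_btwn (show C < C + η by linarith)
      obtain ⟨l, hl1, hl2⟩ := exists_rat_btwn (show lam < lam + η by linarith)
      obtain ⟨q, hq1, hq2⟩ := exists_rat_btwn (show θ - η < θ by linarith)
      have hcl : (c : ℝ) * l ≤ (C + η) * (lam + η) := mul_le_mul hc2.le hl2.le (by linarith) (by linarith)
      filter_upwards [h2 c q l (by linarith) (by linarith) (by linarith) (by linarith) (by linarith),
        eventually_ge_atTop 1] with Y hY hY1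
      obtain ⟨x, hx1, hx2, hx3⟩ := hY
      refine ⟨x, hx1, hx2, fun hI => hx3 ?_⟩
      exact ineq_mono (by linarith) hc1.le hq2.le hl1.le hI

end Pool.Agent.Q112.BT
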