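import Pool.Agent.Q112.BT.Upper

/-!
# Patterns: many elements of one class in a short interval
-/

set_option autoImplicit false

namespace Pool.Agent.Q112.BT

open Finset Filter MeasureTheory ProbabilityTheory Pool.Agent.Q120.GM Pool.Agent.Q112.LE
open scoped Topology

variable {Q : ℕ}
variable {Ω : Type*} [MeasurableSpace Ω] {μ : Measure Ω} [IsProbabilityMeasure μ] {A : Ω → Set ℕ}

/-- The pattern with index `(k, (s, r))`. -/
def pat (Q X t : ℕ) (q : Σ _ : ℕ, ℕ × ℕ) : Finset ℕ :=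
  (range t).image (fun i => 1 + Q * (X + q.2.2 + q.1 * (t * q.2.1 + i)))

/-- The indices of the patterns. -/
def idx (Q X t : ℕ) (K : Finset ℕ) : Finset (Σ _ : ℕ, ℕ × ℕ) :=
  K.sigma (fun k => range (X / (k * t)) ×ˢ (range k).filter (fun r => Nat.Coprime (1 + Q * (X + r)) k))

theorem mem_idx {X t : ℕ} {K : Finset ℕ} {q : Σ _ : ℕ, ℕ × ℕ} : q ∈ idx Q X t K ↔
    q.1 ∈ K ∧ q.2.1 < X / (q.1 * t) ∧ q.2.2 < q.1 ∧ Nat.Coprime (1 + Q * (X + q.2.2)) q.1 := by
  unfold idx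
  rw [mem_sigma, mem_product, mem_range, mem_filter, mem_range]

theorem card_pat (hQ : 1 ≤ Q) {X t : ℕ} {q : Σ _ : ℕ, ℕ × ℕ} (hk : 1 ≤ q.1) : (pat Q X t q).card = t := by
  unfold pat
  rw [card_image_of_injective, card_range]
  intro a b hab
  have h1 : 1 + Q * (X + q.2.2 + q.1 * (t * q.2.1 + a)) = 1 + Q * (X + q.2.2 + q.1 * (t * q.2.1 + b)) := hab
  have h2 : X + q.2.2 + q.1 * (t * q.2.1 + a) = X + q.2.2 + q.1 * (t * q.2.1 + b) :=
    Nat.eq_of_mul_eq_mul_left (by omega) (by omega : Q * (X + q.2.2 + q.1 * (t * q.2.1 + a)) =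
      Q * (X + q.2.2 + q.1 * (t * q.2.1 + b)))
  have h3 : t * q.2.1 + a = t * q.2.1 + b := Nat.eq_of_mul_eq_mul_left (by omega) (by omega :
    q.1 * (t * q.2.1 + a) = q.1 * (t * q.2.1 + b))
  omega

theorem pat_range {X t : ℕ} {K : Finset ℕ} {q : Σ _ : ℕ, ℕ × ℕ} (hq : q ∈ idx Q X t K) {n : ℕ} (hn : n ∈ pat Q X t q) :
    1 + Q * X ≤ n ∧ n ≤ 1 + 2 * (Q * X) ∧ n.Coprime Q := by
  rw [mem_idx] at hq
  obtain ⟨_, h1, h2, _⟩ := hq
  unfold pat at hn
  rw [mem_image] at hn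
  obtain ⟨i, hi, rfl⟩ := hn
  rw [mem_range] at hi
  have h3 : q.1 * t * (q.2.1 + 1) ≤ X := by
    refine le_trans (Nat.mul_le_mul_left _ (by omega : q.2.1 + 1 ≤ X / (q.1 * t))) (Nat.mul_div_le _ _)
  have h4 : q.2.2 + q.1 * (t * q.2.1 + i) ≤ X := by
    have e1 : q.1 * (t * q.2.1 + i) + q.1 ≤ q.1 * t * (q.2.1 + 1) := by
      have e2 : q.1 * (t * q.2.1 + i) + q.1 = q.1 * (t * q.2.1 + (i + 1)) := by ring
      have e3 : q.1 * t * (q.2.1 + 1) = q.1 * (t * q.2.1 + t) := by ring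
      rw [e2, e3]
      exact Nat.mul_le_mul_left _ (by omega)
    omega
  refine ⟨?_, ?_, ?_⟩
  · have : Q * X ≤ Q * (X + q.2.2 + q.1 * (t * q.2.1 + i)) := Nat.mul_le_mul_left _ (by omega)
    omega
  · have : Q * (X + q.2.2 + q.1 * (t * q.2.1 + i)) ≤ Q * (2 * X) := Nat.mul_le_mul_left _ (by omega)
    have e2 : Q * (2 * X) = 2 * (Q * X) := by ring
    omega
  · rw [Nat.coprime_add_mul_left_left]
    exact Nat.coprime_one_left Q

/-- A term and the modulus determine the index. -/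
theorem pat_inj (hQ : 1 ≤ Q) {X t : ℕ} {K : Finset ℕ} {q q' : Σ _ : ℕ, ℕ × ℕ} (hq : q ∈ idx Q X t K)
    (hq' : q' ∈ idx Q X t K) (hk : q.1 = q'.1) {n : ℕ} (hn : n ∈ pat Q X t q) (hn' : n ∈ pat Q X t q') : q = q' := by
  rw [mem_idx] at hq hq'
  unfold pat at hn hn'
  rw [mem_image] at hn hn'
  obtain ⟨i, hi, rfl⟩ := hn
  obtain ⟨j, hj, h⟩ := hn'
  rw [mem_range] at hi hj
  obtain ⟨k, s, r⟩ := q
  obtain ⟨k', s', r'⟩ := q'
  have hkk : k = k' := hk
  subst hkk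
  have h' : 1 + Q * (X + r' + k * (t * s' + j)) = 1 + Q * (X + r + k * (t * s + i)) := h
  have h2 : X + r' + k * (t * s' + j) = X + r + k * (t * s + i) :=
    Nat.eq_of_mul_eq_mul_left (by omega) (by omega : Q * (X + r' + k * (t * s' + j)) = Q * (X + r + k * (t * s + i)))
  have h3 : r' + k * (t * s' + j) = r + k * (t * s + i) := by omega
  have hr : r < k := hq.2.2.1
  have hr' : r' < k := hq'.2.2.1
  have h4 : r' = r := by
    have := congrArg (· % k) h3
    simp only [Nat.add_mul_mod_self_left] at this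
    rwa [Nat.mod_eq_of_lt hr, Nat.mod_eq_of_lt hr'] at this
  subst h4
  have h5 : t * s' + j = t * s + i := Nat.eq_of_mul_eq_mul_left (by omega : 0 < k) (by omega)
  have h6 : s' = s := by
    have e1 := congrArg (· / t) h5
    have ht : 0 < t := by omega
    rw [Nat.mul_add_div ht, Nat.mul_add_div ht, Nat.div_eq_of_lt hi, Nat.div_eq_of_lt hj] at e1
    simpa using e1
  subst h6
  rfl

/-- Two patterns with different moduli have at most one term in common. -/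
theorem pat_inter (hQ : 1 ≤ Q) {X t : ℕ} {q q' : Σ _ : ℕ, ℕ × ℕ} (hco : Nat.Coprime q.1 q'.1) (ht : t ≤ q'.1)
    (hk : 1 ≤ q.1) {a b : ℕ} (ha : a ∈ pat Q X t q) (ha' : a ∈ pat Q X t q') (hb : b ∈ pat Q X t q)
    (hb' : b ∈ pat Q X t q') : a = b := by
  unfold pat at ha ha' hb hb'
  rw [mem_image] at ha ha' hb hb'
  obtain ⟨i, hi, h1⟩ := ha
  obtain ⟨i', hi', h2⟩ := ha'
  obtain ⟨j, hj, h3⟩ := hb
  obtain ⟨j', hj', h4⟩ := hb'
  rw [mem_range] at hi hi' hj hj'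
  have hQ0 : (Q : ℤ) ≠ 0 := by exact_mod_cast (by omega : Q ≠ 0)
  have e1 : (a : ℤ) - b = Q * (q.1 * ((i : ℤ) - j)) := by
    rw [← h1, ← h3]
    push_cast
    ring
  have e2 : (a : ℤ) - b = Q * (q'.1 * ((i' : ℤ) - j')) := by
    rw [← h2, ← h4]
    push_cast
    ring
  have e3 : (q.1 : ℤ) * ((i : ℤ) - j) = q'.1 * ((i' : ℤ) - j') := mul_left_cancel₀ hQ0 (by rw [← e1, ← e2])
  have e4 : (q'.1 : ℤ) ∣ (i : ℤ) - j := by
    have e5 : (q'.1 : ℤ) ∣ (q.1 : ℤ) * ((i : ℤ) - j) := ⟨_, e3⟩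
    have e6 : IsCoprime (q'.1 : ℤ) (q.1 : ℤ) := Nat.isCoprime_iff_coprime.2 hco.symm
    exact e6.dvd_of_dvd_mul_left e5
  have e5 : (i : ℤ) - j = 0 := by
    apply Int.eq_zero_of_abs_lt_dvd e4
    rw [abs_lt]
    constructor <;> omega
  have e6 : i = j := by omega
  rw [← h1, ← h3, e6]

/-- **The probability that there is no pattern.** -/
theorem none_le (hA : IsModel μ (level Q) A) (hQ : 1 ≤ Q) {X t : ℕ} {K : Finset ℕ} (ht : 1 ≤ t)
    (hK1 : ∀ k ∈ K, 1 ≤ k) (hK2 : ∀ k ∈ K, ∀ k' ∈ K, k ≠ k' → Nat.Coprime k k' ∧ t ≤ k) (hX : 1 ≤ X)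
    (hX1 : qq Q ≤ Real.log X) (hX0 : 0 < Real.log X) :
    μ.real (none A (idx Q X t K) (pat Q X t)) ≤ Real.exp (-((idx Q X t K).card *
      (qq Q / Real.log (1 + 2 * (Q * X))) ^ t) + (idx Q X t K).card * ((t * K.card) *
        (qq Q / Real.log X) ^ (2 * t - 1))) := by
  classical
  have hq := qq_pos hQ
  have hXR : (0 : ℝ) < X := by exact_mod_cast hX
  have hQR : (1 : ℝ) ≤ Q := by exact_mod_cast hQ
  have hlevlow : ∀ q ∈ idx Q X t K, ∀ n ∈ pat Q X t q, qq Q / Real.log (1 + 2 * (Q * X)) ≤ level Q n := by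
    intro q hq' n hn
    obtain ⟨e1, e2, e3⟩ := pat_range hq' hn
    have e4 : (X : ℝ) ≤ n := by
      have : X ≤ n := by
        have : 1 * X ≤ Q * X := Nat.mul_le_mul_right X hQ
        omega
      exact_mod_cast this
    have e5 : (n : ℝ) ≤ 1 + 2 * (Q * X) := by exact_mod_cast e2
    exact le_level hX1 hX0 hXR e4 e5 e3
  have hlevup : ∀ q ∈ idx Q X t K, ∀ n ∈ pat Q X t q, level Q n ≤ qq Q / Real.log X := by
    intro q hq' n hn
    obtain ⟨e1, _, _⟩ := pat_range hq' hn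
    have e4 : (X : ℝ) ≤ n := by
      have : X ≤ n := by
        have : 1 * X ≤ Q * X := Nat.mul_le_mul_right X hQ
        omega
      exact_mod_cast this
    exact level_le hX0 hXR e4
  have hp1 : qq Q / Real.log X ≤ 1 := by rwa [div_le_one hX0]
  have hp0 : 0 ≤ qq Q / Real.log X := by positivity
  have hY : 0 < Real.log (1 + 2 * ((Q : ℝ) * X)) := by
    apply Real.log_pos
    have : 0 < (Q : ℝ) * X := by positivity
    linarith
  have hpm0 : 0 ≤ qq Q / Real.log (1 + 2 * (Q * X)) := by positivity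
  refine (janson hA (idx Q X t K) (pat Q X t)).trans ?_
  rw [Real.exp_le_exp]
  have hfirst : ((idx Q X t K).card : ℝ) * (qq Q / Real.log (1 + 2 * (Q * X))) ^ t ≤
      ∑ q ∈ idx Q X t K, ∏ n ∈ pat Q X t q, level Q n := by
    rw [← nsmul_eq_mul]
    refine card_nsmul_le_sum _ _ _ (fun q hq' => ?_)
    have e1 := card_pat hQ (X := X) (t := t) (q := q) (hK1 _ (mem_idx.1 hq').1)
    calc (qq Q / Real.log (1 + 2 * (Q * X))) ^ t = ∏ _n ∈ pat Q X t q, (qq Q / Real.log (1 + 2 * (Q * X))) := by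
          rw [prod_const, e1]
      _ ≤ _ := prod_le_prod (fun _ _ => hpm0) (fun n hn => hlevlow q hq' n hn)
  have hsecond : ∑ j ∈ idx Q X t K, ∑ l ∈ idx Q X t K with l ≠ j ∧ ¬ Disjoint (pat Q X t l) (pat Q X t j),
      ∏ n ∈ pat Q X t l ∪ pat Q X t j, level Q n ≤
      (idx Q X t K).card * ((t * K.card) * (qq Q / Real.log X) ^ (2 * t - 1)) := by
    rw [← nsmul_eq_mul]
    refine sum_le_card_nsmul _ _ _ (fun j hj => ?_)
    have hterm : ∀ l ∈ (idx Q X t K).filter (fun l => l ≠ j ∧ ¬ Disjoint (pat Q X t l) (pat Q X t j)),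
        ∏ n ∈ pat Q X t l ∪ pat Q X t j, level Q n ≤ (qq Q / Real.log X) ^ (2 * t - 1) := by
      intro l hl
      rw [mem_filter] at hl
      obtain ⟨hl1, hl2, hl3⟩ := hl
      rw [Finset.not_disjoint_iff] at hl3
      obtain ⟨n, hn1, hn2⟩ := hl3
      have hne : l.1 ≠ j.1 := fun hc => hl2 (pat_inj hQ hl1 hj hc hn1 hn2)
      have hco := hK2 _ (mem_idx.1 hl1).1 _ (mem_idx.1 hj).1 hne
      have hco2 := hK2 _ (mem_idx.1 hj).1 _ (mem_idx.1 hl1).1 (Ne.symm hne)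
      have hinter : (pat Q X t l ∩ pat Q X t j).card ≤ 1 := by
        rw [card_le_one]
        intro a ha b hb
        rw [mem_inter] at ha hb
        exact pat_inter hQ hco.1 hco2.2 (hK1 _ (mem_idx.1 hl1).1) ha.1 ha.2 hb.1 hb.2
      have e1 := card_union_add_card_inter (pat Q X t l) (pat Q X t j)
      rw [card_pat hQ (hK1 _ (mem_idx.1 hl1).1), card_pat hQ (hK1 _ (mem_idx.1 hj).1)] at e1
      have e2 : 2 * t - 1 ≤ (pat Q X t l ∪ pat Q X t j).card := by omega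
      calc ∏ n ∈ pat Q X t l ∪ pat Q X t j, level Q n ≤ ∏ _n ∈ pat Q X t l ∪ pat Q X t j, (qq Q / Real.log X) := by
            refine prod_le_prod (fun n _ => level_nonneg Q n) (fun n hn => ?_)
            rw [mem_union] at hn
            rcases hn with hn | hn
            · exact hlevup l hl1 n hn
            · exact hlevup j hj n hn
        _ = (qq Q / Real.log X) ^ (pat Q X t l ∪ pat Q X t j).card := by rw [prod_const]
        _ ≤ _ := pow_le_pow_of_le_one hp0 hp1 e2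
    refine (sum_le_card_nsmul _ _ _ hterm).trans ?_
    rw [nsmul_eq_mul]
    refine mul_le_mul_of_nonneg_right ?_ (by positivity)
    -- counting the patterns meeting a given one
    have hcard : ((idx Q X t K).filter (fun l => l ≠ j ∧ ¬ Disjoint (pat Q X t l) (pat Q X t j))).card ≤
        (pat Q X t j ×ˢ K).card := by
      have hch : ∀ l : (Σ _ : ℕ, ℕ × ℕ), ∃ n, ¬ Disjoint (pat Q X t l) (pat Q X t j) → n ∈ pat Q X t l ∧ n ∈ pat Q X t j := by
        intro l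
        by_cases h : ¬ Disjoint (pat Q X t l) (pat Q X t j)
        · obtain ⟨n, hn1, hn2⟩ := Finset.not_disjoint_iff.1 h
          exact ⟨n, fun _ => ⟨hn1, hn2⟩⟩
        · exact ⟨0, fun hc => absurd hc h⟩
      choose f hf using hch
      refine card_le_card_of_injOn (fun l => (f l, l.1)) (fun l hl => ?_) (fun l hl l' hl' hll => ?_)
      · rw [mem_coe, mem_filter] at hl
        rw [mem_coe, mem_product]
        exact ⟨(hf l hl.2.2).2, (mem_idx.1 hl.1).1⟩
      · rw [mem_coe, mem_filter] at hl hl'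
        have h1 : f l = f l' := congrArg Prod.fst hll
        have h2 : l.1 = l'.1 := congrArg Prod.snd hll
        refine pat_inj hQ hl.1 hl'.1 h2 (hf l hl.2.2).1 ?_
        rw [h1]
        exact (hf l' hl'.2.2).1
    rw [card_product, card_pat hQ (hK1 _ (mem_idx.1 hj).1)] at hcard
    exact_mod_cast hcard
  linarith

/-- The number of the patterns. -/
theorem le_card_idx {X t : ℕ} {K : Finset ℕ} (ht : 1 ≤ t) (hK1 : ∀ k ∈ K, 1 ≤ k)
    (hK3 : ∀ k ∈ K, (k : ℝ) / 2 ≤ (((range k).filter (fun r => Nat.Coprime (1 + Q * (X + r)) k)).card : ℝ))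
    (hK4 : ∀ k ∈ K, 2 * (k * t) ≤ X) : (K.card : ℝ) * (X / (4 * t)) ≤ (idx Q X t K).card := by
  unfold idx
  rw [card_sigma]
  push_cast
  rw [← nsmul_eq_mul]
  refine card_nsmul_le_sum _ _ _ (fun k hk => ?_)
  rw [card_product, card_range]
  push_cast
  have hk0 : (1 : ℝ) ≤ k := by exact_mod_cast hK1 k hk
  have ht0 : (1 : ℝ) ≤ t := by exact_mod_cast ht
  have h1 : (X : ℝ) / (2 * (k * t)) ≤ ((X / (k * t) : ℕ) : ℝ) := by
    have hkt : 0 < k * t := Nat.mul_pos (hK1 k hk) ht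
    have h2 := Nat.lt_div_mul_add (a := X) hkt
    have h3 : (X : ℝ) < ((X / (k * t) : ℕ) : ℝ) * (k * t) + k * t := by exact_mod_cast h2
    have h4 : (2 : ℝ) * (k * t) ≤ X := by exact_mod_cast hK4 k hk
    rw [div_le_iff₀ (by positivity)]
    nlinarith
  have h2 := hK3 k hk
  calc (X : ℝ) / (4 * t) = (X : ℝ) / (2 * (k * t)) * (k / 2) := by
        field_simp
        norm_num
    _ ≤ _ := mul_le_mul h1 h2 (by positivity) (Nat.cast_nonneg _)

end Pool.Agent.Q112.BT
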