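import Pool.Agent.Q112.BT.Mean

/-!
# Probabilities of dense windows
-/

set_option autoImplicit false

namespace Pool.Agent.Q112.BT

open Finset Filter MeasureTheory ProbabilityTheory Pool.Agent.Q120.GM Pool.Agent.Q112.LE
open scoped Topology

variable {Q : ℕ}
variable {Ω : Type*} [MeasurableSpace Ω] {μ : Measure Ω} [IsProbabilityMeasure μ] {A : Ω → Set ℕ}

/-- The event `n ∈ A`. -/
def El (A : Ω → Set ℕ) (n : ℕ) : Set Ω := {ω | n ∈ A ω}

theorem real_el (hA : IsModel μ (level Q) A) (n : ℕ) : μ.real (El A n) = level Q n := by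
  have h := real_all hA {n}
  rw [prod_singleton] at h
  rw [← h]
  congr 1
  ext ω
  simp [El, all]

theorem meas_el (hA : IsModel μ (level Q) A) (n : ℕ) : MeasurableSet (El A n) := by
  have h := meas_all hA {n}
  have h2 : El A n = all A {n} := by
    ext ω
    simp [El, all]
  rwa [h2]

theorem mutual_el (hA : IsModel μ (level Q) A) (W : Finset ℕ) : Mutual μ W (El A) := by
  intro T _
  have h := real_all hA T
  have h2 : (⋂ a ∈ T, El A a) = all A T := by
    ext ω
    simp [El, all]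
  rw [h2, h]
  exact prod_congr rfl (fun n _ => (real_el hA n).symm)

/-- The function `z / log z`. -/
noncomputable def gf (z : ℝ) : ℝ := z / Real.log z

theorem gf_mono {a b : ℝ} (ha : Real.exp 1 ≤ a) (hab : a ≤ b) : gf a ≤ gf b := by
  have h1 := Real.log_div_self_antitoneOn (show a ∈ {x : ℝ | Real.exp 1 ≤ x} from ha)
    (show b ∈ {x : ℝ | Real.exp 1 ≤ x} from ha.trans hab) hab
  have h2 : (0 : ℝ) < Real.exp 1 := Real.exp_pos 1
  have ha0 : 0 < a := h2.trans_le ha
  have hb0 : 0 < b := ha0.trans_le hab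
  have hla : 1 ≤ Real.log a := by
    rw [← Real.log_exp 1]
    exact Real.log_le_log h2 ha
  have hlb : 1 ≤ Real.log b := hla.trans (Real.log_le_log ha0 hab)
  unfold gf
  have h3 : Real.log b / b ≤ Real.log a / a := h1
  rw [div_le_div_iff₀ hb0 ha0] at h3
  rw [div_le_div_iff₀ (by linarith) (by linarith)]
  linarith

theorem gf_nonneg {z : ℝ} (hz : 1 ≤ z) : 0 ≤ gf z := div_nonneg (by linarith) (Real.log_nonneg hz)

/-- The level of the density. -/
noncomputable def Zf (lam : ℝ) (m H : ℕ) : ℝ := max ((H : ℝ) - 1) (lam * Real.log m)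

theorem tendsto_loglog : Tendsto (fun m : ℕ => Real.log (Real.log (m : ℝ))) atTop atTop :=
  Real.tendsto_log_atTop.comp hL1

/-- Polynomials in `log L` are smaller than powers of `L`; here `L = log m`. -/
theorem loglog_le (K : ℝ) {δ : ℝ} (hδ : 0 < δ) : ∀ᶠ m : ℕ in atTop,
    K * Real.log (Real.log (m : ℝ)) ≤ Real.log (m : ℝ) ^ δ := by
  have h1 := (isLittleO_log_rpow_atTop hδ).bound (show 0 < 1 / (|K| + 1) by positivity)
  have h2 := hL1.eventually h1
  filter_upwards [h2, hL1.eventually_ge_atTop 1] with d h3 hd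
  have hl0 : 0 ≤ Real.log (Real.log (d : ℝ)) := Real.log_nonneg hd
  rw [Real.norm_of_nonneg hl0, Real.norm_of_nonneg (Real.rpow_nonneg (by linarith) δ)] at h3
  have h4 : 0 < |K| + 1 := by positivity
  have h5 : (|K| + 1) * Real.log (Real.log (d : ℝ)) ≤ Real.log (d : ℝ) ^ δ := by
    have := mul_le_mul_of_nonneg_left h3 h4.le
    rw [← mul_assoc, mul_one_div_cancel h4.ne', one_mul] at this
    exact this
  have h6 := le_abs_self K
  nlinarith

theorem win_ge {m k H n : ℕ} (h : k * (H - 1) ≤ m) (hn : n ∈ win m k H) : m ≤ n + k * (H - 1) := by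
  unfold win at hn
  rw [mem_image] at hn
  obtain ⟨j, hj, rfl⟩ := hn
  rw [mem_range] at hj
  have h1 : k * j ≤ k * (H - 1) := Nat.mul_le_mul_left k (by omega)
  omega

/-- **Short windows.** -/
theorem short_win (hA : IsModel μ (level Q) A) (hQ : 1 ≤ Q) {C θ lam ρ : ℝ} (hC : 0 < C) (hlam : 0 < lam)
    (hθ1 : θ < 1) (hρ : ρ < C * lam) :
    ∀ᶠ m : ℕ in atTop, ∀ k H : ℕ, (k : ℝ) ≤ 2 * (m : ℝ) ^ θ → (H : ℝ) ≤ Real.log m ^ 5 →
      μ.real {ω | C * gf (Zf lam m H) ≤ num (win m k H) (El A) ω} ≤ (m : ℝ) ^ (-ρ) := by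
  have hCl : 0 < C * lam := by positivity
  -- a small `δ`
  obtain ⟨δ, hδ, hδ1, hδ2⟩ : ∃ δ : ℝ, 0 < δ ∧ δ < 1 / 4 ∧ ρ ≤ (1 - 3 * δ) * (C * lam) := by
    refine ⟨min (1 / 8) ((C * lam - ρ) / (4 * (C * lam))), by
      have : 0 < C * lam - ρ := by linarith
      positivity, lt_of_le_of_lt (min_le_left _ _) (by norm_num), ?_⟩
    have h1 : min (1 / 8) ((C * lam - ρ) / (4 * (C * lam))) ≤ (C * lam - ρ) / (4 * (C * lam)) := min_le_right _ _
    have h2 : (C * lam - ρ) / (4 * (C * lam)) * (C * lam) = (C * lam - ρ) / 4 := by field_simp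
    have h3 : min (1 / 8) ((C * lam - ρ) / (4 * (C * lam))) * (C * lam) ≤ (C * lam - ρ) / 4 := by
      rw [← h2]
      exact mul_le_mul_of_nonneg_right h1 hCl.le
    nlinarith
  have hq := qq_pos hQ
  have g1 : ∀ᶠ m : ℕ in atTop, 4 * Real.log (m : ℝ) ^ 5 ≤ (m : ℝ) ^ (1 - θ) := by
    have h1 : ∀ᶠ m : ℕ in atTop, 1 * Real.log (m : ℝ) ≤ (m : ℝ) ^ ((1 - θ) / 6) := log_le_rpow 1 (by linarith)
    filter_upwards [h1, ev_rpow 4 (show 0 < (1 - θ) / 6 by linarith), eventually_ge_atTop 1] with m h2 h3 hm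
    have hm0 : (0 : ℝ) < m := by exact_mod_cast hm
    have hl : 0 ≤ Real.log (m : ℝ) := Real.log_natCast_nonneg m
    have h4 : Real.log (m : ℝ) ^ 5 ≤ ((m : ℝ) ^ ((1 - θ) / 6)) ^ 5 := pow_le_pow_left₀ hl (by linarith) 5
    have h5 : (m : ℝ) ^ (1 - θ) = ((m : ℝ) ^ ((1 - θ) / 6)) ^ 5 * (m : ℝ) ^ ((1 - θ) / 6) := by
      rw [← pow_succ, ← Real.rpow_natCast, ← Real.rpow_mul hm0.le]
      congr 1
      push_cast
      ring
    rw [h5]
    have h6 : 0 ≤ ((m : ℝ) ^ ((1 - θ) / 6)) ^ 5 := by positivity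
    nlinarith
  have g2 : ∀ᶠ m : ℕ in atTop, 1 - δ ≤ Real.log (Real.log (m : ℝ)) / Real.log (lam * Real.log (m : ℝ)) := by
    have h1 : Tendsto (fun m : ℕ => Real.log (Real.log (m : ℝ)) / Real.log (lam * Real.log (m : ℝ))) atTop (𝓝 1) := by
      have h2 : Tendsto (fun y : ℝ => y / (Real.log lam + y)) atTop (𝓝 1) := by
        have h3 : Tendsto (fun y : ℝ => 1 / (Real.log lam / y + 1)) atTop (𝓝 (1 / (0 + 1))) :=
          tendsto_const_nhds.div ((tendsto_const_nhds.div_atTop tendsto_id).add tendsto_const_nhds) (by norm_num)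
        rw [zero_add, div_one] at h3
        refine h3.congr' ?_
        filter_upwards [eventually_gt_atTop (|Real.log lam| + 1)] with y hy
        have hy0 : 0 < y := by have := abs_nonneg (Real.log lam); linarith
        have hy1 : 0 < Real.log lam + y := by have := neg_abs_le (Real.log lam); linarith
        field_simp
      refine (h2.comp tendsto_loglog).congr' ?_
      filter_upwards [hL1.eventually_gt_atTop 0] with m hm
      show Real.log (Real.log (m : ℝ)) / (Real.log lam + Real.log (Real.log (m : ℝ))) = _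
      rw [Real.log_mul hlam.ne' hm.ne']
    exact (h1.eventually (lt_mem_nhds (show 1 - δ < 1 by linarith))).mono (fun m hm => hm.le)
  have g3 : ∀ᶠ m : ℕ in atTop, Real.exp 1 ≤ lam * Real.log (m : ℝ) := (hL1.const_mul_atTop hlam).eventually_ge_atTop _
  filter_upwards [g1, g2, g3, hL1.eventually_ge_atTop (max lam 3), tendsto_loglog.eventually_ge_atTop 1,
    loglog_le (20 * (4 * qq Q) / (δ * C)) hδ, hL2.eventually_gt_atTop 0, eventually_ge_atTop 2]
    with m h1 h2 h3 h4 h5 h6 h7 hm k H hk hH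
  have hm2 : (2 : ℝ) ≤ m := by exact_mod_cast hm
  have hm0 : (0 : ℝ) < m := by linarith
  obtain ⟨L, hL⟩ : ∃ L, L = Real.log (m : ℝ) := ⟨_, rfl⟩
  rw [← hL] at h1 h2 h3 h4 h5 h6 hH
  have hL3 : 3 ≤ L := (le_max_right _ _).trans h4
  have hLlam : lam ≤ L := (le_max_left _ _).trans h4
  have hL0 : 0 < L := by linarith
  -- the terms of the window
  have hkH : (k : ℝ) * H ≤ m / 2 := by
    have e1 : (k : ℝ) * H ≤ (2 * (m : ℝ) ^ θ) * L ^ 5 := mul_le_mul hk hH (Nat.cast_nonneg H) (by positivity)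
    have e2 : (m : ℝ) ^ θ * (m : ℝ) ^ (1 - θ) = m := by
      rw [← Real.rpow_add hm0]
      norm_num
    have e3 : 0 < (m : ℝ) ^ θ := by positivity
    nlinarith
  have hkH' : k * (H - 1) ≤ m := by
    have e1 : ((k * (H - 1) : ℕ) : ℝ) ≤ m := by
      push_cast
      have e2 : ((H - 1 : ℕ) : ℝ) ≤ H := by exact_mod_cast Nat.sub_le H 1
      have e3 : (k : ℝ) * ((H - 1 : ℕ) : ℝ) ≤ k * H := mul_le_mul_of_nonneg_left e2 (Nat.cast_nonneg k)
      linarith
    exact_mod_cast e1
  have hwin : ∀ n ∈ win m k H, (m : ℝ) / 2 ≤ n := by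
    intro n hn
    have e1 := win_ge hkH' hn
    have e2 : (m : ℝ) ≤ n + k * ((H - 1 : ℕ) : ℝ) := by exact_mod_cast e1
    have e3 : ((H - 1 : ℕ) : ℝ) ≤ H := by exact_mod_cast Nat.sub_le H 1
    have e4 : (k : ℝ) * ((H - 1 : ℕ) : ℝ) ≤ k * H := mul_le_mul_of_nonneg_left e3 (Nat.cast_nonneg k)
    linarith
  have hmean : ∑ n ∈ win m k H, level Q n ≤ 2 * qq Q * H / L := by
    have e1 := mean_le' (m := m) (k := k) (H := H) hQ (show (0 : ℝ) < (m : ℝ) / 2 by positivity) h7 hwin
    refine e1.trans ?_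
    have e2 : L / 2 ≤ Real.log ((m : ℝ) / 2) := by
      rw [Real.log_div hm0.ne' (by norm_num), ← hL]
      have := Real.log_two_lt_d9
      linarith
    have e3 : qq Q / Real.log ((m : ℝ) / 2) ≤ qq Q / (L / 2) := div_le_div_of_nonneg_left hq.le (by positivity) e2
    have e4 : (H : ℝ) * (qq Q / Real.log ((m : ℝ) / 2)) ≤ H * (qq Q / (L / 2)) :=
      mul_le_mul_of_nonneg_left e3 (Nat.cast_nonneg H)
    refine e4.trans (le_of_eq ?_)
    field_simp
  -- the level `Z`
  obtain ⟨Z, hZ⟩ : ∃ Z, Z = Zf lam m H := ⟨_, rfl⟩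
  have hZ1 : lam * L ≤ Z := by rw [hZ, hL]; exact le_max_right _ _
  have hZe : Real.exp 1 ≤ Z := h3.trans hZ1
  have hZH : (H : ℝ) - 1 ≤ Z := by rw [hZ]; exact le_max_left _ _
  have he := Real.exp_one_gt_d9
  have hZ0 : 0 < Z := by linarith
  have hZH2 : (H : ℝ) ≤ 2 * Z := by linarith
  have hZL : Z ≤ L ^ 5 := by
    rw [hZ]
    refine max_le (by linarith) ?_
    rw [← hL]
    have e1 : lam * L ≤ L * L := mul_le_mul_of_nonneg_right hLlam hL0.le
    have e2 : L * L ≤ L ^ 5 := by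
      have : L ^ 2 ≤ L ^ 5 := pow_le_pow_right₀ (by linarith) (by norm_num)
      nlinarith
    linarith
  have hlogZ : Real.log Z ≤ 5 * Real.log L := by
    have := Real.log_le_log hZ0 hZL
    rwa [Real.log_pow] at this
  have hlogZ1 : 1 ≤ Real.log Z := by
    rw [← Real.log_exp 1]
    exact Real.log_le_log (Real.exp_pos 1) hZe
  obtain ⟨G, hG⟩ : ∃ G, G = gf Z := ⟨_, rfl⟩
  have hGZ : G = Z / Real.log Z := hG
  have hG0 : 0 < G := by rw [hGZ]; positivity
  -- the exponential inequality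
  have hl0 : 0 ≤ (1 - δ) * Real.log L := mul_nonneg (by linarith) (by linarith)
  have htail := tail_up (μ := μ) (J := win m k H) (G := El A) (fun n _ => meas_el hA n) (mutual_el hA _) hl0 (C * G)
  rw [sum_congr rfl (fun n _ => real_el hA n)] at htail
  rw [← hZ, ← hG]
  refine htail.trans ?_
  rw [Real.rpow_def_of_pos hm0, Real.exp_le_exp, ← hL]
  have hexp : Real.exp ((1 - δ) * Real.log L) = L / L ^ δ := by
    rw [← Real.rpow_one_sub' hL0.le (by linarith)] 
    rw [Real.rpow_def_of_pos hL0]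
    congr 1
    ring
  have hLδ : 0 < L ^ δ := by positivity
  have hS0 : 0 ≤ ∑ n ∈ win m k H, level Q n := sum_nonneg (fun n _ => level_nonneg Q n)
  have e1 : (Real.exp ((1 - δ) * Real.log L) - 1) * ∑ n ∈ win m k H, level Q n ≤ δ * C * G := by
    have e2 : (Real.exp ((1 - δ) * Real.log L) - 1) * ∑ n ∈ win m k H, level Q n ≤
        L / L ^ δ * (2 * qq Q * H / L) := by
      rw [hexp]
      have e3 : 0 ≤ L / L ^ δ := by positivity
      calc (L / L ^ δ - 1) * ∑ n ∈ win m k H, level Q n ≤ (L / L ^ δ) * ∑ n ∈ win m k H, level Q n :=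
            mul_le_mul_of_nonneg_right (by linarith) hS0
        _ ≤ _ := mul_le_mul_of_nonneg_left hmean e3
    refine e2.trans ?_
    have e3 : L / L ^ δ * (2 * qq Q * H / L) = 2 * qq Q * H / L ^ δ := by field_simp
    rw [e3, div_le_iff₀ hLδ]
    -- `2 q H ≤ 4 q Z` and `Z = G log Z ≤ 5 G log L`
    have e4 : Z = G * Real.log Z := by rw [hGZ]; field_simp
    have e5 : Z ≤ G * (5 * Real.log L) := by
      rw [e4]
      have : G * Real.log Z ≤ G * (5 * Real.log L) := mul_le_mul_of_nonneg_left hlogZ hG0.le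
      rwa [← e4] at this ⊢
    have e6 : 20 * (4 * qq Q) * Real.log L ≤ δ * C * L ^ δ := by
      have e7 : 0 < δ * C := by positivity
      have e8 := mul_le_mul_of_nonneg_left h6 e7.le
      have e9 : δ * C * (20 * (4 * qq Q) / (δ * C) * Real.log L) = 20 * (4 * qq Q) * Real.log L := by
        field_simp
      linarith
    have e10 : 2 * qq Q * H ≤ 4 * qq Q * (G * (5 * Real.log L)) := by
      have e13 : 2 * qq Q * H ≤ 2 * qq Q * (2 * Z) := mul_le_mul_of_nonneg_left hZH2 (by positivity)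
      have e14 : 4 * qq Q * Z ≤ 4 * qq Q * (G * (5 * Real.log L)) := mul_le_mul_of_nonneg_left e5 (by positivity)
      linarith
    have e11 : G * (20 * (4 * qq Q) * Real.log L) ≤ G * (δ * C * L ^ δ) := mul_le_mul_of_nonneg_left e6 hG0.le
    have e12 : 0 ≤ G * (qq Q * Real.log L) := mul_nonneg hG0.le (mul_nonneg hq.le (by linarith))
    have e15 : 4 * qq Q * (G * (5 * Real.log L)) = 20 * (G * (qq Q * Real.log L)) := by ring
    have e16 : G * (20 * (4 * qq Q) * Real.log L) = 80 * (G * (qq Q * Real.log L)) := by ring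
    have e17 : G * (δ * C * L ^ δ) = δ * C * G * L ^ δ := by ring
    linarith
  have e2 : gf (lam * L) ≤ G := by rw [hG]; exact gf_mono h3 hZ1
  have hlamL : 0 < Real.log (lam * L) := by
    have := Real.log_le_log (Real.exp_pos 1) h3
    rw [Real.log_exp] at this
    linarith
  have e3 : (1 - δ) * (lam * L) ≤ Real.log L * G := by
    have e4 : (1 - δ) * (lam * L) ≤ Real.log L / Real.log (lam * L) * (lam * L) :=
      mul_le_mul_of_nonneg_right h2 (by positivity)
    have e5 : Real.log L / Real.log (lam * L) * (lam * L) = Real.log L * gf (lam * L) := by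
      unfold gf
      field_simp
    rw [e5] at e4
    exact e4.trans (mul_le_mul_of_nonneg_left e2 (by linarith))
  -- conclusion
  have e4 : δ * C * G ≤ δ * C * (G * Real.log L) := by
    apply mul_le_mul_of_nonneg_left _ (by positivity)
    nlinarith
  have e5 : (1 - 2 * δ) * C * ((1 - δ) * (lam * L)) ≤ (1 - 2 * δ) * C * (Real.log L * G) :=
    mul_le_mul_of_nonneg_left e3 (mul_nonneg (by linarith) hC.le)
  have e6 : ρ * L ≤ (1 - 2 * δ) * C * ((1 - δ) * (lam * L)) := by
    have e7 : ρ * L ≤ (1 - 3 * δ) * (C * lam) * L := mul_le_mul_of_nonneg_right hδ2 hL0.le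
    have e8 : 0 ≤ C * lam * L := by positivity
    nlinarith [mul_nonneg (mul_nonneg hδ.le hδ.le) e8]
  have e7 : L * -ρ = -(ρ * L) := by ring
  rw [e7]
  have e8 : (1 - δ) * Real.log L * (C * G) = C * (Real.log L * G) - δ * C * (G * Real.log L) := by ring
  have e9 : (1 - 2 * δ) * C * (Real.log L * G) = C * (Real.log L * G) - 2 * (δ * C * (G * Real.log L)) := by ring
  linarith

end Pool.Agent.Q112.BT
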