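import Pool.Agent.Q112.BT.Long

/-!
# The Brun-Titchmarsh inequality in the models: the range where it holds
-/

set_option autoImplicit false

namespace Pool.Agent.Q112.BT

open Finset Filter MeasureTheory ProbabilityTheory Pool.Agent.Q120.GM Pool.Agent.Q112.LE
open scoped Topology

variable {Q : ℕ}
variable {Ω : Type*} [MeasurableSpace Ω] {μ : Measure Ω} [IsProbabilityMeasure μ] {A : Ω → Set ℕ}

/-- `N(x, y; k, l)` for the set `S`. -/
noncomputable def count (S : Set ℕ) (x y : ℝ) (k l : ℕ) : ℝ :=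
  (Set.ncard {n : ℕ | n ∈ S ∧ x - y < n ∧ (n : ℝ) ≤ x ∧ n % k = l % k} : ℝ)

/-- The inequality with constant `C` at `x`. -/
def Ineq (S : Set ℕ) (C θ lam x : ℝ) : Prop :=
  ∀ (k l : ℕ) (y : ℝ), 1 ≤ k → (k : ℝ) ≤ x ^ θ → Nat.Coprime l k → (k : ℝ) < y → lam * k * Real.log x ≤ y → y ≤ x →
    count S x y k l < C * y / (Nat.totient k * Real.log (y / k))

theorem pow_log_le (K : ℝ) (n : ℕ) {δ : ℝ} (hδ : 0 < δ) : ∀ᶠ m : ℕ in atTop, K * Real.log (m : ℝ) ^ n ≤ (m : ℝ) ^ δ := by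
  have hδ' : 0 < δ / (n + 1) := by positivity
  filter_upwards [log_le_rpow 1 hδ', ev_rpow K hδ', eventually_ge_atTop 1] with m h2 h3 hm
  have hm0 : (0 : ℝ) < m := by exact_mod_cast hm
  have hl : 0 ≤ Real.log (m : ℝ) := Real.log_natCast_nonneg m
  rw [one_mul] at h2
  have h4 : Real.log (m : ℝ) ^ n ≤ ((m : ℝ) ^ (δ / (n + 1))) ^ n := pow_le_pow_left₀ hl h2 n
  have h5 : (m : ℝ) ^ δ = (m : ℝ) ^ (δ / (n + 1)) * ((m : ℝ) ^ (δ / (n + 1))) ^ n := by
    rw [← pow_succ', ← Real.rpow_natCast, ← Real.rpow_mul hm0.le]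
    congr 1
    push_cast
    field_simp
  rw [h5]
  have h6 : 0 ≤ Real.log (m : ℝ) ^ n := by positivity
  have h7 : 0 ≤ (m : ℝ) ^ (δ / (n + 1)) := by positivity
  calc K * Real.log (m : ℝ) ^ n ≤ (m : ℝ) ^ (δ / (n + 1)) * Real.log (m : ℝ) ^ n := mul_le_mul_of_nonneg_right h3 h6
    _ ≤ _ := mul_le_mul_of_nonneg_left h4 h7

theorem short_as (hA : IsModel μ (level Q) A) (hQ : 1 ≤ Q) {C θ lam : ℝ} (hC : 0 < C) (hlam : 0 < lam) (hθ0 : 0 ≤ θ)
    (hθ1 : θ < 1) (h : 1 + θ < C * lam) :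
    ∀ᵐ ω ∂μ, ∀ᶠ m : ℕ in atTop, ∀ k H : ℕ, (k : ℝ) ≤ 2 * (m : ℝ) ^ θ → (H : ℝ) ≤ Real.log m ^ 5 →
      num (win m k H) (El A) ω < C * gf (Zf lam m H) := by
  obtain ⟨ε, hε⟩ : ∃ ε, ε = (C * lam - (1 + θ)) / 8 := ⟨_, rfl⟩
  have hε0 : 0 < ε := by rw [hε]; linarith
  have hρ : 1 + θ + 4 * ε < C * lam := by rw [hε]; linarith
  obtain ⟨E, hE⟩ : ∃ E : ℕ → Set Ω, E = fun m : ℕ => ⋃ k ∈ range (⌊2 * (m : ℝ) ^ θ⌋₊ + 1), ⋃ H ∈ range (⌊Real.log (m : ℝ) ^ 5⌋₊ + 1),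
    {ω | C * gf (Zf lam m H) ≤ num (win m k H) (El A) ω} := ⟨_, rfl⟩
  have hEb : ∀ᶠ m : ℕ in atTop, μ.real (E m) ≤ (m : ℝ) ^ (-(1 + ε)) := by
    filter_upwards [short_win (μ := μ) hA hQ hC hlam hθ1 hρ, pow_log_le 6 5 (show 0 < 3 * ε by linarith),
      hL1.eventually_ge_atTop 1, eventually_ge_atTop 1] with m h1 h2 h3 hm
    have hm0 : (0 : ℝ) < m := by exact_mod_cast hm
    have hm1 : (1 : ℝ) ≤ m := by exact_mod_cast hm
    have hmθ : 1 ≤ (m : ℝ) ^ θ := Real.one_le_rpow hm1 hθ0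
    have hl5 : 1 ≤ Real.log (m : ℝ) ^ 5 := one_le_pow₀ h3
    rw [hE]
    refine (measureReal_biUnion_finset_le _ _).trans ?_
    have h4 : ∀ k ∈ range (⌊2 * (m : ℝ) ^ θ⌋₊ + 1), μ.real (⋃ H ∈ range (⌊Real.log (m : ℝ) ^ 5⌋₊ + 1),
        {ω | C * gf (Zf lam m H) ≤ num (win m k H) (El A) ω}) ≤
        (Real.log (m : ℝ) ^ 5 + 1) * (m : ℝ) ^ (-(1 + θ + 4 * ε)) := by
      intro k hk
      rw [mem_range] at hk
      have hk' : (k : ℝ) ≤ 2 * (m : ℝ) ^ θ := (Nat.le_floor_iff (by positivity)).1 (by omega)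
      refine (measureReal_biUnion_finset_le _ _).trans ?_
      refine (sum_le_card_nsmul _ _ ((m : ℝ) ^ (-(1 + θ + 4 * ε))) (fun H hH => ?_)).trans ?_
      · rw [mem_range] at hH
        exact h1 k H hk' ((Nat.le_floor_iff (by positivity)).1 (by omega))
      · rw [nsmul_eq_mul, card_range]
        refine mul_le_mul_of_nonneg_right ?_ (by positivity)
        push_cast
        have := Nat.floor_le (show 0 ≤ Real.log (m : ℝ) ^ 5 by positivity)
        linarith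
    refine (sum_le_card_nsmul _ _ _ h4).trans ?_
    rw [nsmul_eq_mul, card_range]
    have h5 : ((⌊2 * (m : ℝ) ^ θ⌋₊ + 1 : ℕ) : ℝ) ≤ 3 * (m : ℝ) ^ θ := by
      push_cast
      have := Nat.floor_le (show 0 ≤ 2 * (m : ℝ) ^ θ by positivity)
      linarith
    have h6 : (0 : ℝ) < (m : ℝ) ^ (-(1 + θ + 4 * ε)) := by positivity
    calc ((⌊2 * (m : ℝ) ^ θ⌋₊ + 1 : ℕ) : ℝ) * ((Real.log (m : ℝ) ^ 5 + 1) * (m : ℝ) ^ (-(1 + θ + 4 * ε)))
        ≤ (3 * (m : ℝ) ^ θ) * ((2 * Real.log (m : ℝ) ^ 5) * (m : ℝ) ^ (-(1 + θ + 4 * ε))) := by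
          apply mul_le_mul h5 _ (by positivity) (by positivity)
          exact mul_le_mul_of_nonneg_right (by linarith) h6.le
      _ = (6 * Real.log (m : ℝ) ^ 5) * ((m : ℝ) ^ θ * (m : ℝ) ^ (-(1 + θ + 4 * ε))) := by ring
      _ ≤ (m : ℝ) ^ (3 * ε) * ((m : ℝ) ^ θ * (m : ℝ) ^ (-(1 + θ + 4 * ε))) :=
          mul_le_mul_of_nonneg_right h2 (by positivity)
      _ = (m : ℝ) ^ (-(1 + ε)) := by
          rw [← Real.rpow_add hm0, ← Real.rpow_add hm0]
          congr 1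
          ring
  have hsm : Summable (fun m : ℕ => (m : ℝ) ^ (-(1 + ε))) := Real.summable_nat_rpow.2 (by linarith)
  filter_upwards [bc hsm hEb] with ω hω
  filter_upwards [hω] with m h1 k H hk hH
  by_contra hcon
  push Not at hcon
  apply h1
  rw [hE]
  refine Set.mem_biUnion (x := k) ?_ (Set.mem_biUnion (x := H) ?_ hcon)
  · show k ∈ range (⌊2 * (m : ℝ) ^ θ⌋₊ + 1)
    rw [mem_range]
    have := Nat.le_floor hk
    omega
  · show H ∈ range (⌊Real.log (m : ℝ) ^ 5⌋₊ + 1)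
    rw [mem_range]
    have := Nat.le_floor hH
    omega

theorem long_as (hA : IsModel μ (level Q) A) (hQ : 1 ≤ Q) {C lam : ℝ} (hC : 1 < C) (hlam : 0 < lam) :
    ∀ᵐ ω ∂μ, ∀ᶠ m : ℕ in atTop, ∀ k H : ℕ, 1 ≤ k → k ≤ m → Real.log m ^ 5 < (H : ℝ) → k * (H - 1) ≤ m →
      Nat.Coprime m k →
      num (win m k H) (El A) ω < C * ((k : ℝ) / Nat.totient k) * gf (Zf lam m H) := by
  classical
  obtain ⟨I, hI⟩ : ∃ I : ℕ → Finset (ℕ × ℕ), I = fun m => (range (m + 1) ×ˢ range (m + 2)).filter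
    (fun q => 1 ≤ q.1 ∧ Real.log m ^ 5 < (q.2 : ℝ) ∧ q.1 * (q.2 - 1) ≤ m ∧ Nat.Coprime m q.1) := ⟨_, rfl⟩
  obtain ⟨E, hE⟩ : ∃ E : ℕ → Set Ω, E = fun m => ⋃ q ∈ I m,
    {ω | C * ((q.1 : ℝ) / Nat.totient q.1) * gf (Zf lam m q.2) ≤ num (win m q.1 q.2) (El A) ω} := ⟨_, rfl⟩
  have hEb : ∀ᶠ m : ℕ in atTop, μ.real (E m) ≤ (m : ℝ) ^ (-(2 : ℝ)) := by
    filter_upwards [long_win (μ := μ) hA hQ hC hlam, eventually_ge_atTop 6] with m h1 hm
    have hm0 : (6 : ℝ) ≤ m := by exact_mod_cast hm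
    rw [hE]
    refine (measureReal_biUnion_finset_le _ _).trans ?_
    refine (sum_le_card_nsmul _ _ ((m : ℝ) ^ (-(5 : ℝ))) (fun q hq => ?_)).trans ?_
    · rw [hI] at hq
      have hq' := (mem_filter.1 hq).2
      exact h1 q.1 q.2 hq'.1 hq'.2.1 hq'.2.2.1 hq'.2.2.2
    · rw [nsmul_eq_mul]
      have h2 : (I m).card ≤ (m + 1) * (m + 2) := by
        rw [hI]
        refine (card_filter_le _ _).trans ?_
        rw [card_product, card_range, card_range]
      have h3 : ((I m).card : ℝ) ≤ (m + 1) * (m + 2) := by exact_mod_cast h2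
      have h4 : (m : ℝ) ^ (-(2 : ℝ)) = (m : ℝ) ^ 3 * (m : ℝ) ^ (-(5 : ℝ)) := by
        rw [← Real.rpow_natCast, ← Real.rpow_add (by linarith)]
        norm_num
      rw [h4]
      refine mul_le_mul_of_nonneg_right (h3.trans ?_) (by positivity)
      nlinarith [sq_nonneg ((m : ℝ) - 6)]
  have hsm : Summable (fun m : ℕ => (m : ℝ) ^ (-(2 : ℝ))) := Real.summable_nat_rpow.2 (by norm_num)
  filter_upwards [bc hsm hEb] with ω hω
  filter_upwards [hω] with m h1 k H hk hkm hH hkH hg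
  by_contra hcon
  push Not at hcon
  apply h1
  rw [hE]
  refine Set.mem_biUnion (x := (k, H)) ?_ hcon
  show (k, H) ∈ I m
  rw [hI]
  refine mem_filter.2 ⟨mem_product.2 ⟨?_, ?_⟩, hk, hH, hkH, hg⟩
  · rw [mem_range]
    show k < m + 1
    omega
  · rw [mem_range]
    show H < m + 2
    have : 1 * (H - 1) ≤ k * (H - 1) := Nat.mul_le_mul_right _ hk
    omega

/-- **The range of the inequality.** -/
theorem bt_upper (hA : IsModel μ (level Q) A) (hQ : 1 ≤ Q) {C θ lam : ℝ} (hC : 1 < C) (hlam : 0 < lam) (hθ0 : 0 ≤ θ)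
    (hθ1 : θ < 1) (h : 1 + θ < C * lam) : ∀ᵐ ω ∂μ, ∀ᶠ x : ℝ in atTop, Ineq (A ω) C θ lam x := by
  classical
  filter_upwards [short_as hA hQ (by linarith) hlam hθ0 hθ1 h, long_as hA hQ hC hlam] with ω h1 h2
  have h3 : ∀ᶠ m : ℕ in atTop, Real.exp 1 ≤ lam * Real.log (m : ℝ) := (hL1.const_mul_atTop hlam).eventually_ge_atTop _
  obtain ⟨m₀, hm₀⟩ := eventually_atTop.1 (h1.and (h2.and h3))
  have h4 : ∀ᶠ x : ℝ in atTop, 4 ≤ x ^ (1 - θ) := (tendsto_rpow_atTop (by linarith)).eventually_ge_atTop 4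
  filter_upwards [h4, eventually_ge_atTop (2 * (m₀ : ℝ) + 2), eventually_ge_atTop 4] with x hx4 hxm hx
  intro k l y hk hkx hcop hky hly hyx
  have hx0 : (0 : ℝ) < x := by linarith
  have hk0 : (0 : ℝ) < k := by exact_mod_cast hk
  have hk1 : (1 : ℝ) ≤ k := by exact_mod_cast hk
  -- `k ≤ x / 4`
  have hkx4 : (k : ℝ) ≤ x / 4 := by
    have e1 : x ^ θ * x ^ (1 - θ) = x := by
      rw [← Real.rpow_add hx0]
      norm_num
    have e2 : 0 < x ^ θ := by positivity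
    nlinarith
  -- the largest term
  obtain ⟨X, hX⟩ : ∃ X, X = ⌊x⌋₊ := ⟨_, rfl⟩
  have hXx : (X : ℝ) ≤ x := by rw [hX]; exact Nat.floor_le hx0.le
  have hxX : x < X + 1 := by rw [hX]; exact Nat.lt_floor_add_one x
  obtain ⟨R, hR⟩ : ∃ R : Finset ℕ, R = (range (X + 1)).filter (fun n => n % k = l % k) := ⟨_, rfl⟩
  have hRne : R.Nonempty := by
    refine ⟨l % k, ?_⟩
    rw [hR, mem_filter, mem_range]
    refine ⟨?_, Nat.mod_mod _ _⟩
    have e1 : l % k < k := Nat.mod_lt _ (by omega)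
    have e2 : k ≤ X := by
      rw [hX]
      apply Nat.le_floor
      linarith
    omega
  obtain ⟨m, hm⟩ : ∃ m, m = R.max' hRne := ⟨_, rfl⟩
  have hmR : m ∈ R := by rw [hm]; exact max'_mem _ _
  have hmax : ∀ n : ℕ, (n : ℝ) ≤ x → n % k = l % k → n ≤ m := by
    intro n hn hnl
    rw [hm]
    apply le_max'
    rw [hR, mem_filter, mem_range]
    refine ⟨?_, hnl⟩
    have : n ≤ X := by rw [hX]; exact Nat.le_floor hn
    omega
  rw [hR, mem_filter, mem_range] at hmR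
  obtain ⟨hmX, hml⟩ := hmR
  have hmx : (m : ℝ) ≤ x := by
    have : (m : ℝ) ≤ X := by exact_mod_cast (by omega : m ≤ X)
    linarith
  have hmk : x < m + k := by
    by_contra hcon
    push Not at hcon
    have e1 := hmax (m + k) (by push_cast; exact hcon) (by rw [Nat.add_mod_right]; exact hml)
    omega
  have hm2 : x / 2 ≤ m := by linarith
  have hmm₀ : m₀ ≤ m := by
    have : (m₀ : ℝ) ≤ m := by linarith
    exact_mod_cast this
  obtain ⟨g1, g2, g3⟩ := hm₀ m hmm₀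
  have hm0 : (0 : ℝ) < m := by linarith
  have hmN : 1 ≤ m := by exact_mod_cast (by linarith : (1 : ℝ) ≤ m)
  have hkm : (k : ℝ) ≤ 2 * (m : ℝ) ^ θ := by
    refine hkx.trans ?_
    have e1 : x ^ θ ≤ (2 * (m : ℝ)) ^ θ := Real.rpow_le_rpow hx0.le (by linarith) hθ0
    rw [Real.mul_rpow (by norm_num) hm0.le] at e1
    have e2 : (2 : ℝ) ^ θ ≤ 2 ^ (1 : ℝ) := Real.rpow_le_rpow_of_exponent_le (by norm_num) hθ1.le
    rw [Real.rpow_one] at e2
    have e3 : 0 < (m : ℝ) ^ θ := by positivity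
    nlinarith
  have hkmN : k ≤ m := by
    have : (k : ℝ) ≤ m := by linarith
    exact_mod_cast this
  have hcopm : Nat.Coprime m k := by
    have e1 : Nat.gcd k m = Nat.gcd k l := by
      rw [Nat.gcd_rec k m, hml, ← Nat.gcd_rec k l]
    rw [Nat.coprime_comm] at hcop
    rw [Nat.coprime_comm]
    unfold Nat.Coprime at hcop ⊢
    rw [e1, hcop]
  have hy0 : 0 < y := by linarith
  have hyk0 : 0 < y / k := by positivity
  -- the number of terms
  obtain ⟨H, hH⟩ : ∃ H, H = min ⌈y / k⌉₊ (m / k + 1) := ⟨_, rfl⟩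
  have hH1 : H ≤ ⌈y / k⌉₊ := by rw [hH]; exact min_le_left _ _
  have hH2 : H ≤ m / k + 1 := by rw [hH]; exact min_le_right _ _
  have hkH : k * (H - 1) ≤ m := by
    have e1 : k * (H - 1) ≤ k * (m / k) := Nat.mul_le_mul_left k (Nat.sub_le_iff_le_add.2 hH2)
    exact e1.trans (Nat.mul_div_le m k)
  have hHy : (H : ℝ) - 1 ≤ y / k := by
    have e1 : (H : ℝ) ≤ ⌈y / k⌉₊ := by exact_mod_cast hH1
    have e2 := Nat.ceil_lt_add_one hyk0.le
    linarith
  have hsub : {n : ℕ | n ∈ A ω ∧ x - y < n ∧ (n : ℝ) ≤ x ∧ n % k = l % k} ⊆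
      (((win m k H).filter (fun n => ω ∈ El A n) : Finset ℕ) : Set ℕ) := by
    rintro n ⟨hnA, hn1, hn2, hn3⟩
    have hnm := hmax n hn2 hn3
    rw [mem_coe, mem_filter]
    refine ⟨?_, hnA⟩
    have hmod : n ≡ m [MOD k] := by
      show n % k = m % k
      rw [hn3, hml]
    obtain ⟨j, hj⟩ := (Nat.modEq_iff_dvd' hnm).1 hmod
    unfold win
    rw [mem_image]
    refine ⟨j, ?_, by omega⟩
    rw [mem_range, hH, lt_min_iff]
    constructor
    · rw [Nat.lt_ceil, lt_div_iff₀ hk0]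
      have e1 : (k : ℝ) * j = m - n := by
        have : ((k * j : ℕ) : ℝ) = ((m - n : ℕ) : ℝ) := by rw [hj]
        rw [Nat.cast_sub hnm] at this
        push_cast at this
        exact this
      linarith
    · have e1 : j ≤ m / k := by
        rw [Nat.le_div_iff_mul_le (by omega)]
        have : k * j ≤ m := by omega
        linarith [mul_comm k j]
      omega
  have hcount : count (A ω) x y k l ≤ num (win m k H) (El A) ω := by
    rw [num_card]
    unfold count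
    have e1 := Set.ncard_le_ncard hsub (Finset.finite_toSet _)
    rw [Set.ncard_coe_finset] at e1
    exact_mod_cast e1
  -- the bound
  have hlog : Real.log (m : ℝ) ≤ Real.log x := Real.log_le_log hm0 hmx
  have hZ : Zf lam m H ≤ y / k := by
    unfold Zf
    refine max_le hHy ?_
    rw [le_div_iff₀ hk0]
    have e1 : lam * Real.log m * k ≤ lam * k * Real.log x := by
      have : lam * k * Real.log m ≤ lam * k * Real.log x := mul_le_mul_of_nonneg_left hlog (by positivity)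
      linarith
    linarith
  have hZe : Real.exp 1 ≤ Zf lam m H := g3.trans (le_max_right _ _)
  have hgf := gf_mono hZe hZ
  have hphi0 : (0 : ℝ) < Nat.totient k := by exact_mod_cast Nat.totient_pos.2 hk
  have hphik : (1 : ℝ) ≤ (k : ℝ) / Nat.totient k := by
    rw [le_div_iff₀ hphi0, one_mul]
    exact_mod_cast Nat.totient_le k
  have hgf0 : 0 ≤ gf (Zf lam m H) := gf_nonneg (by
    have := Real.exp_one_gt_d9
    linarith)
  have hval : C * y / (Nat.totient k * Real.log (y / k)) = C * ((k : ℝ) / Nat.totient k) * gf (y / k) := by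
    unfold gf
    field_simp
  rw [hval]
  have hbig : C * ((k : ℝ) / Nat.totient k) * gf (Zf lam m H) ≤ C * ((k : ℝ) / Nat.totient k) * gf (y / k) :=
    mul_le_mul_of_nonneg_left hgf (by positivity)
  refine lt_of_lt_of_le ?_ hbig
  refine hcount.trans_lt ?_
  rcases le_or_gt (H : ℝ) (Real.log (m : ℝ) ^ 5) with hHs | hHs
  · refine (g1 k H hkm hHs).trans_le ?_
    have e1 : C * 1 * gf (Zf lam m H) ≤ C * ((k : ℝ) / Nat.totient k) * gf (Zf lam m H) := by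
      apply mul_le_mul_of_nonneg_right _ hgf0
      exact mul_le_mul_of_nonneg_left hphik (by linarith)
    linarith
  · exact g2 k H hk hkmN hHs hkH hcopm

end Pool.Agent.Q112.BT
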